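import Mathlib

/-!
# AT-13: the arithmetic of the pumping steps

`steps`. Let `k₀ = n₀ + 1`, `D = Nat.lcmUpto k₀` (the lcm of `1, ..., k₀`). Claim: for all
`n ∈ S`, `n ≥ n₀`, there is `κ` with `1 ≤ κ ≤ k₀` and `n + κ * j ∈ S` for all `j` (then `κ ∣ D` gives
`n + D ∈ S`). Strong induction on `n`. Take `k` from `h`. If `k ≤ k₀` we are done. If `k > k₀` take
`j = D ≤ lcmUpto k` (`lcmUpto k₀ ∣ lcmUpto k`), so `n' = n - k * D ∈ S`, and `n' ≥ k > n₀` because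
`k * D + k ≤ n`; `n' < n` since `k * D > 0`. By the induction hypothesis there is `κ ≤ k₀` with
`n' + κ * j ∈ S` for all `j`; as `κ ∣ D`, `n + κ * j = n' + κ * (k * (D / κ) + j) ∈ S` for all `j`.

`lcmUpto_le`: `Chebyshev.psi_eq_log_lcmUpto` and `Chebyshev.psi_le_const_mul_self`.
-/

set_option autoImplicit false

namespace Pool.Agent.Helper87.AS

private theorem lcmUpto_dvd' {a b : ℕ} (h : a ≤ b) : Nat.lcmUpto a ∣ Nat.lcmUpto b := by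
  unfold Nat.lcmUpto
  refine Finset.lcm_dvd fun x hx => ?_
  refine Finset.dvd_lcm (f := id) ?_
  rw [Finset.mem_Icc] at hx ⊢
  exact ⟨hx.1, hx.2.trans h⟩

private theorem dvd_lcmUpto' {a b : ℕ} (h1 : 1 ≤ a) (h : a ≤ b) : a ∣ Nat.lcmUpto b := by
  unfold Nat.lcmUpto
  exact Finset.dvd_lcm (f := id) (Finset.mem_Icc.2 ⟨h1, h⟩)

theorem steps (S : Set ℕ) (n₀ : ℕ)
    (h : ∀ n ∈ S, n₀ ≤ n → ∃ k, 1 ≤ k ∧ (∀ j, n + k * j ∈ S) ∧
      ∀ j ≤ Nat.lcmUpto k, k * j + k ≤ n ∧ n - k * j ∈ S) :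
    ∃ D, 0 < D ∧ ∀ n ∈ S, n₀ ≤ n → n + D ∈ S := by
  have hD0 : 0 < Nat.lcmUpto (n₀ + 1) := Nat.lcmUpto_pos _
  have key : ∀ n, n ∈ S → n₀ ≤ n → ∃ κ, 1 ≤ κ ∧ κ ≤ n₀ + 1 ∧ ∀ j, n + κ * j ∈ S := by
    intro n
    induction n using Nat.strong_induction_on with
    | _ n ih =>
      intro hn hn0
      obtain ⟨k, hk1, hk2, hk3⟩ := h n hn hn0
      by_cases hk : k ≤ n₀ + 1
      · exact ⟨k, hk1, hk, hk2⟩
      · push Not at hk
        have hle : Nat.lcmUpto (n₀ + 1) ≤ Nat.lcmUpto k :=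
          Nat.le_of_dvd (Nat.lcmUpto_pos _) (lcmUpto_dvd' hk.le)
        obtain ⟨h1, h2⟩ := hk3 _ hle
        have hpos : 0 < k * Nat.lcmUpto (n₀ + 1) := Nat.mul_pos (by omega) hD0
        obtain ⟨κ, hκ1, hκ2, hκ3⟩ := ih (n - k * Nat.lcmUpto (n₀ + 1)) (by omega) h2 (by omega)
        refine ⟨κ, hκ1, hκ2, fun j => ?_⟩
        obtain ⟨c, hc⟩ := dvd_lcmUpto' hκ1 hκ2
        have h3 := hκ3 (k * c + j)
        have h4 : κ * (k * c + j) = k * Nat.lcmUpto (n₀ + 1) + κ * j := by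
          rw [hc]
          ring
        rw [h4] at h3
        have h5 : n - k * Nat.lcmUpto (n₀ + 1) + (k * Nat.lcmUpto (n₀ + 1) + κ * j) = n + κ * j := by
          omega
        rwa [h5] at h3
  refine ⟨Nat.lcmUpto (n₀ + 1), hD0, fun n hn hn0 => ?_⟩
  obtain ⟨κ, hκ1, hκ2, hκ3⟩ := key n hn hn0
  obtain ⟨c, hc⟩ := dvd_lcmUpto' hκ1 hκ2
  rw [hc]
  exact hκ3 c

theorem lcmUpto_le : ∃ lam : ℝ, 0 < lam ∧ ∀ k : ℕ,
    (Nat.lcmUpto k : ℝ) ≤ Real.exp (lam * k) := by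
  refine ⟨Real.log 4 + 4, by positivity, fun k => ?_⟩
  have h1 : (0 : ℝ) < (Nat.lcmUpto k : ℝ) := by exact_mod_cast Nat.lcmUpto_pos k
  rw [← Real.log_le_iff_le_exp h1, ← Chebyshev.psi_eq_log_lcmUpto]
  exact Chebyshev.psi_le_const_mul_self (Nat.cast_nonneg k)

end Pool.Agent.Helper87.AS
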