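import Pool.Agent.Helper87.AT.Zone

/-!
# AT-5: the cost of fixing a zone

* `cost_set`: fix the points of `X` one after the other (`card_fixSub`, orbits over `Y ∪ ..` are contained in
  orbits over `∅`).
* `cost_piece`: let `P = pc H T x`, `x ∈ P`, `E` an enumeration of `P`, `Z₀ ⊆ Y`. `card_fixSub H Y x`:
  `|fixSub H Y| ≤ D * |fixSub H (insert x Y)|`. An element `g` of `fixSub H (insert x Y)` fixes `x`, so
  it maps `P = pc H T x` onto itself (`pc_image`) and induces `r g : Perm (Fin k)` with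
  `g (E c) = E (r g c)`; `r g ∈ ind H Z₀ E ⊆ A`. `r` is a homomorphism; if `r g = r g'` then
  `g⁻¹ * g' ∈ fixSub H (Y ∪ P)`; so the fibres of `r` have at most `|fixSub H (Y ∪ P)|` elements and
  `|fixSub H (insert x Y)| ≤ |A| * |fixSub H (Y ∪ P)|`.
* `class_cost`: first fix `Z₀` (`cost_set`: factor `D ^ |Z₀|`). Then, by induction on a finset
  `S ⊆ pcs H T x₀` of pieces, `|fixSub H (Y ∪ Z₀)| ≤ (D * |A|) ^ a * (D ^ k) ^ b * |fixSub H (Y ∪ Z₀ ∪ S.biUnion id)|`
  where `a` is the number of the `P ∈ S` without points of `Z₀` (`cost_piece`) and `b` the number of the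
  other ones (`cost_set`, `|P| = k`). For `S = pcs H T x₀`: `a ≤ |pcs H T x₀|`, and `b ≤ |Z₀|` because the
  pieces are disjoint (`Tame.pcs_disj`: choose for each such `P` a point of `Z₀` in `P`). Finally
  `fixSub H (Y ∪ Z₀ ∪ zone) ≤ fixSub H (Y ∪ zone)`, and `D ^ |Z₀| * (D ^ k) ^ |Z₀| = D ^ ((k + 1) * |Z₀|)`.
-/

set_option autoImplicit false

namespace Pool.Agent.Helper87.AS

open Finset

variable {Ω : Type} [Fintype Ω] [DecidableEq Ω] {H : Subgroup (Equiv.Perm Ω)} {T K s D : ℕ}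

theorem cost_set (hD : ∀ x, (orb H ∅ x).card ≤ D) (Y X : Finset Ω) :
    Nat.card (fixSub H Y) ≤ D ^ X.card * Nat.card (fixSub H (Y ∪ X)) := by
  induction X using Finset.induction_on with
  | empty => simp
  | insert u X hu ih =>
    rw [card_insert_of_notMem hu, union_insert]
    refine ih.trans ?_
    rw [card_fixSub H (Y ∪ X) u, pow_succ, mul_assoc]
    refine Nat.mul_le_mul_left _ (Nat.mul_le_mul_right _ ?_)
    exact (orb_card_mono (empty_subset _) u).trans (hD u)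

private theorem card_fixSub_mono {Y Y' : Finset Ω} (h : Y ⊆ Y') :
    Nat.card (fixSub H Y') ≤ Nat.card (fixSub H Y) := by
  have h1 : fixSub H Y' ≤ fixSub H Y := fun g hg => ⟨hg.1, fun z hz => hg.2 z (h hz)⟩
  exact Nat.card_le_card_of_injective (Subgroup.inclusion h1) (Subgroup.inclusion_injective h1)

theorem cost_piece (hD : ∀ x, (orb H ∅ x).card ≤ D) {x : Ω} (hx : x ∈ pc H T x) {k : ℕ}
    (E : Fin k → Ω) (hE : Function.Injective E) (hEP : ∀ y, y ∈ pc H T x ↔ ∃ c, E c = y)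
    (A : Subgroup (Equiv.Perm (Fin k))) {Z₀ Y : Finset Ω} (hA : ∀ π, π ∈ ind H Z₀ E → π ∈ A)
    (hZY : Z₀ ⊆ Y) :
    Nat.card (fixSub H Y) ≤ D * Nat.card A * Nat.card (fixSub H (Y ∪ pc H T x)) := by
  classical
  have key : ∀ g : fixSub H (insert x Y), ∃ π : A, ∀ c, (g : Equiv.Perm Ω) (E c) = E (π.1 c) := by
    rintro ⟨g, hg⟩
    have hgx : g x = x := hg.2 x (mem_insert_self _ _)
    have h1 : pc H T x = (pc H T x).image g := by
      have := pc_image (T := T) hg.1 x
      rwa [hgx] at this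
    have h2 : ∀ c, ∃ c', E c' = g (E c) := by
      intro c
      apply (hEP _).1
      rw [h1]
      exact mem_image_of_mem g ((hEP _).2 ⟨c, rfl⟩)
    choose f hf using h2
    have hinj : Function.Injective f := by
      intro c d hcd
      apply hE
      apply g.injective
      rw [← hf c, ← hf d, hcd]
    let π : Equiv.Perm (Fin k) := Equiv.ofBijective f (Finite.injective_iff_bijective.1 hinj)
    have hπ : ∀ c, g (E c) = E (π c) := fun c => (hf c).symm
    refine ⟨⟨π, hA π (mem_ind.2 ⟨g, hg.1, fun z hz => ?_, hπ⟩)⟩, hπ⟩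
    exact hg.2 z (mem_insert_of_mem (hZY hz))
  choose r hr using key
  let g₀ : A → fixSub H (insert x Y) := Function.invFun r
  have hg₀ : ∀ g, r (g₀ (r g)) = r g := fun g => Function.invFun_eq ⟨g, rfl⟩
  have hfix : ∀ g : fixSub H (insert x Y),
      ((g₀ (r g) : Equiv.Perm Ω)⁻¹ * (g : Equiv.Perm Ω)) ∈ fixSub H (Y ∪ pc H T x) := by
    intro g
    refine ⟨H.mul_mem (H.inv_mem (g₀ (r g)).2.1) g.2.1, fun z hz => ?_⟩
    rw [Equiv.Perm.mul_apply, Equiv.Perm.inv_eq_iff_eq]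
    rcases mem_union.1 hz with hz | hz
    · rw [g.2.2 z (mem_insert_of_mem hz), (g₀ (r g)).2.2 z (mem_insert_of_mem hz)]
    · obtain ⟨c, rfl⟩ := (hEP _).1 hz
      rw [hr g c, hr (g₀ (r g)) c, hg₀]
  let Φ : fixSub H (insert x Y) → A × fixSub H (Y ∪ pc H T x) := fun g =>
    (r g, ⟨(g₀ (r g) : Equiv.Perm Ω)⁻¹ * (g : Equiv.Perm Ω), hfix g⟩)
  have hΦ : Function.Injective Φ := by
    intro g g' h
    have h1 : r g = r g' := congrArg Prod.fst h
    have h2 : (g₀ (r g) : Equiv.Perm Ω)⁻¹ * (g : Equiv.Perm Ω) =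
        (g₀ (r g') : Equiv.Perm Ω)⁻¹ * (g' : Equiv.Perm Ω) :=
      congrArg (fun p => (p.2 : Equiv.Perm Ω)) h
    rw [h1] at h2
    exact Subtype.ext (mul_left_cancel h2)
  have h3 := Nat.card_le_card_of_injective Φ hΦ
  rw [Nat.card_prod] at h3
  calc Nat.card (fixSub H Y) = (orb H Y x).card * Nat.card (fixSub H (insert x Y)) :=
        card_fixSub H Y x
    _ ≤ D * (Nat.card A * Nat.card (fixSub H (Y ∪ pc H T x))) :=
        Nat.mul_le_mul ((orb_card_mono (empty_subset _) x).trans (hD x)) h3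
    _ = _ := (mul_assoc _ _ _).symm

theorem Tame.class_cost (h : Tame H T K s) (hs : 2 ≤ s) {x₀ : Ω}
    (hx₀ : T ≤ (orb H ∅ x₀).card) (hD : ∀ x, (orb H ∅ x).card ≤ D) {Z₀ : Finset Ω}
    {A : Subgroup (Equiv.Perm (Fin (pc H T x₀).card))}
    (hZ : ∀ P ∈ pcs H T x₀, (∀ z ∈ Z₀, z ∉ P) →
      ∃ E : Fin (pc H T x₀).card → Ω, Function.Injective E ∧ (∀ y, y ∈ P ↔ ∃ c, E c = y) ∧
        (∀ π, π ∈ ind H Z₀ E → π ∈ A)) (Y : Finset Ω) :
    Nat.card (fixSub H Y) ≤ D ^ (((pc H T x₀).card + 1) * Z₀.card) *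
      (D * Nat.card A) ^ (pcs H T x₀).card * Nat.card (fixSub H (Y ∪ zone H T x₀)) := by
  classical
  have hDpos : 0 < D := (orb_pos H ∅ x₀).trans_le (hD x₀)
  have hApos : 0 < Nat.card A := Nat.card_pos
  have key : ∀ S : Finset (Finset Ω), S ⊆ pcs H T x₀ →
      Nat.card (fixSub H (Y ∪ Z₀)) ≤
        (D * Nat.card A) ^ (S.filter (fun P => ∀ z ∈ Z₀, z ∉ P)).card *
        (D ^ (pc H T x₀).card) ^ (S.filter (fun P => ¬ ∀ z ∈ Z₀, z ∉ P)).card *
        Nat.card (fixSub H (Y ∪ Z₀ ∪ S.biUnion id)) := by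
    intro S
    induction S using Finset.induction_on with
    | empty => intro _; simp
    | insert P S hPS ih =>
      intro hS
      have hP : P ∈ pcs H T x₀ := hS (mem_insert_self _ _)
      have ih' := ih (fun Q hQ => hS (mem_insert_of_mem hQ))
      have hun : Y ∪ Z₀ ∪ (insert P S).biUnion id = (Y ∪ Z₀ ∪ S.biUnion id) ∪ P := by
        rw [biUnion_insert, id, union_comm P, ← union_assoc]
      rw [hun]
      by_cases hc : ∀ z ∈ Z₀, z ∉ P
      · have e1 : (insert P S).filter (fun P => ∀ z ∈ Z₀, z ∉ P) =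
            insert P (S.filter (fun P => ∀ z ∈ Z₀, z ∉ P)) := by
          rw [filter_insert, if_pos hc]
        have e2 : (insert P S).filter (fun P => ¬ ∀ z ∈ Z₀, z ∉ P) =
            S.filter (fun P => ¬ ∀ z ∈ Z₀, z ∉ P) := by
          rw [filter_insert, if_neg (not_not.2 hc)]
        rw [e1, e2, card_insert_of_notMem (fun hm => hPS (mem_filter.1 hm).1)]
        obtain ⟨E, hE, hEP, hA⟩ := hZ P hP hc
        obtain ⟨x, hx, rfl⟩ := mem_pcs.1 hP
        have hxl : T ≤ (orb H ∅ x).card := by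
          rw [orb_eq hx]; exact hx₀
        have h1 := cost_piece (T := T) hD (h.self_mem_pc hxl) E hE hEP A hA
          (Z₀ := Z₀) (Y := Y ∪ Z₀ ∪ S.biUnion id)
          (fun z hz => mem_union_left _ (mem_union_right _ hz))
        refine ih'.trans ((Nat.mul_le_mul_left _ h1).trans (le_of_eq ?_))
        rw [pow_succ]
        ring
      · have e1 : (insert P S).filter (fun P => ∀ z ∈ Z₀, z ∉ P) =
            S.filter (fun P => ∀ z ∈ Z₀, z ∉ P) := by
          rw [filter_insert, if_neg hc]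
        have e2 : (insert P S).filter (fun P => ¬ ∀ z ∈ Z₀, z ∉ P) =
            insert P (S.filter (fun P => ¬ ∀ z ∈ Z₀, z ∉ P)) := by
          rw [filter_insert, if_pos hc]
        rw [e1, e2, card_insert_of_notMem (fun hm => hPS (mem_filter.1 hm).1)]
        have h1 := cost_set hD (Y ∪ Z₀ ∪ S.biUnion id) P
        rw [card_of_mem_pcs hP] at h1
        refine ih'.trans ((Nat.mul_le_mul_left _ h1).trans (le_of_eq ?_))
        rw [pow_succ]
        ring
  have h1 := cost_set hD Y Z₀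
  have h2 := key (pcs H T x₀) (Subset.refl _)
  rw [biUnion_pcs] at h2
  have h3 : ((pcs H T x₀).filter (fun P => ∀ z ∈ Z₀, z ∉ P)).card ≤ (pcs H T x₀).card :=
    card_filter_le _ _
  have h4 : ((pcs H T x₀).filter (fun P => ¬ ∀ z ∈ Z₀, z ∉ P)).card ≤ Z₀.card := by
    have hch : ∀ P : Finset Ω, (¬ ∀ z ∈ Z₀, z ∉ P) → ∃ z, z ∈ Z₀ ∧ z ∈ P := by
      intro P hP
      by_contra hcon
      apply hP
      intro z hz hzP
      exact hcon ⟨z, hz, hzP⟩
    have hch' : ∀ P : Finset Ω, ∃ z : Ω, (¬ ∀ z ∈ Z₀, z ∉ P) → z ∈ Z₀ ∧ z ∈ P := by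
      intro P
      by_cases hP : ¬ ∀ z ∈ Z₀, z ∉ P
      · obtain ⟨z, hz⟩ := hch P hP
        exact ⟨z, fun _ => hz⟩
      · exact ⟨x₀, fun h' => absurd h' hP⟩
    choose f hf using hch'
    refine card_le_card_of_injOn f (fun P hP => ?_) (fun P hP Q hQ hPQ => ?_)
    · exact (hf P (mem_filter.1 hP).2).1
    · have hP' := mem_filter.1 hP
      have hQ' := mem_filter.1 hQ
      by_contra hne
      have hd := h.pcs_disj hs hx₀ hP'.1 hQ'.1 hne
      have m1 := (hf P hP'.2).2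
      have m2 := (hf Q hQ'.2).2
      rw [← hPQ] at m2
      exact (disjoint_left.1 hd) m1 m2
  have h5 : Nat.card (fixSub H (Y ∪ Z₀ ∪ zone H T x₀)) ≤ Nat.card (fixSub H (Y ∪ zone H T x₀)) := by
    apply card_fixSub_mono
    intro z hz
    rcases mem_union.1 hz with hz | hz
    · exact mem_union_left _ (mem_union_left _ hz)
    · exact mem_union_right _ hz
  calc Nat.card (fixSub H Y) ≤ D ^ Z₀.card * Nat.card (fixSub H (Y ∪ Z₀)) := h1
    _ ≤ D ^ Z₀.card * ((D * Nat.card A) ^ (pcs H T x₀).card *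
        (D ^ (pc H T x₀).card) ^ Z₀.card * Nat.card (fixSub H (Y ∪ zone H T x₀))) := by
        refine Nat.mul_le_mul_left _ (h2.trans ?_)
        refine Nat.mul_le_mul (Nat.mul_le_mul ?_ ?_) h5
        · exact Nat.pow_le_pow_right (Nat.mul_pos hDpos hApos) h3
        · exact Nat.pow_le_pow_right (Nat.pow_pos hDpos) h4
    _ = _ := by
        rw [← pow_mul, add_mul, one_mul, pow_add]
        ring

end Pool.Agent.Helper87.AS
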