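import Mathlib

/-!
# AT-9: the numerical inequality for a class of pieces

`x = log D`, `x' = log √D`, `t = log T`, `y = log μ`, `y' = log (μ N')`, `la = log |A|`.

* `x / k ≤ lam * x / (y + t) ≤ lam * x / (y + x / 5) ≤ 5 * lam * x / (x + y)`.
* `x' / (x' + y') ≤ (x / 2) / (x / 2 + y + x / 5) = 5 * x / (7 * x + 10 * y) ≤ (5 / 7) * (x / (x + y))`
  (`u / (u + v)` is increasing in `u` and decreasing in `v`).
* `5 + 20 * (5 / 7) ≤ 20`.
So `N * (x + la) ≤ N * k * (5 * lam * ψ + a' + 20 * lam * (5 / 7) * ψ) ≤ N * k * (a' + 20 * lam * ψ)` with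
`ψ = x / (x + y)`.
-/

set_option autoImplicit false

namespace Pool.Agent.Helper87.AS

theorem num_class {x x' t y y' lam a' la k N z : ℝ} (hx : 0 < x) (hx' : 0 < x')
    (hxx' : 2 * x' ≤ x) (ht : x ≤ 5 * t) (hy : 0 ≤ y) (hy' : y + t ≤ y') (hlam : 0 < lam)
    (hk : 0 < k) (hN : 0 ≤ N) (h1 : y + t ≤ lam * k)
    (h2 : la ≤ (a' + 20 * lam * (x' / (x' + y'))) * k) (h3 : (k + 1) * z * x ≤ N * k / x) :
    (k + 1) * z * x + N * (x + la) ≤ N * k * (a' + 20 * lam * (x / (x + y)) + 1 / x) := by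
  have hxy : 0 < x + y := by linarith
  have hy'0 : 0 ≤ y' := by nlinarith
  have hx'y' : 0 < x' + y' := by linarith
  have hyx : y + x / 5 ≤ y' := by linarith
  have e1 : x ≤ k * (5 * lam * (x / (x + y))) := by
    have h0 : y + x / 5 ≤ lam * k := by linarith
    have h4 : k * (5 * lam * (x / (x + y))) = 5 * (lam * k) * x / (x + y) := by ring
    rw [h4, le_div_iff₀ hxy]
    have h5 : 5 * (y + x / 5) * x ≤ 5 * (lam * k) * x := by
      apply mul_le_mul_of_nonneg_right _ hx.le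
      linarith
    nlinarith [mul_nonneg hx.le hy]
  have e2 : x' / (x' + y') ≤ 5 / 7 * (x / (x + y)) := by
    have h4 : 5 / 7 * (x / (x + y)) = 5 * x / (7 * (x + y)) := by
      field_simp
    rw [h4, div_le_div_iff₀ hx'y' (by positivity)]
    have h5 : x * (y + x / 5) ≤ x * y' := mul_le_mul_of_nonneg_left hyx hx.le
    have h6 : x * (2 * x') ≤ x * x := mul_le_mul_of_nonneg_left hxx' hx.le
    have h7 : (2 * x') * y ≤ x * y := mul_le_mul_of_nonneg_right hxx' hy
    nlinarith [mul_nonneg hx.le hy]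
  have e3 : la ≤ (a' + 20 * lam * (5 / 7 * (x / (x + y)))) * k := by
    refine h2.trans (mul_le_mul_of_nonneg_right ?_ hk.le)
    have := mul_le_mul_of_nonneg_left e2 (by positivity : (0 : ℝ) ≤ 20 * lam)
    linarith
  have e4 : x + la ≤ k * (a' + 20 * lam * (x / (x + y))) := by
    have h8 : 0 ≤ k * (lam * (x / (x + y))) := by positivity
    nlinarith
  have e5 := mul_le_mul_of_nonneg_left e4 hN
  have e6 : N * k * (a' + 20 * lam * (x / (x + y)) + 1 / x) =
      N * (k * (a' + 20 * lam * (x / (x + y)))) + N * k / x := by ring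
  rw [e6]
  linarith

end Pool.Agent.Helper87.AS
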