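import Pool.Agent.Helper87.AT.Zone

/-!
# AT-3: pieces can be added and removed

* `Tame.rem_pieces`. Let `Z` be disjoint from `X = S.biUnion id`, `|Z| ≤ R`, and `y ∈ X`, say
  `y ∈ pc H T x ∈ S` with `x ∈ orb H ∅ x₀` (`mem_pcs`), a very large point. No point of `Z` is in
  `pc H T x ⊆ X`, so `x ∉ cl H T Z` (`Tame.notMem_cl`). Then `y ∉ cl H T Z`: otherwise
  `x ∈ pc H T y = cl H T {y} ⊆ cl H T (insert y Z)` (`pc_symm`) and `Tame.trans` gives `x ∈ cl H T Z`. As `y` is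
  large (`large_of_mem_pc`), `y ∉ cl H T Z` means `|orb H ∅ y| < 2 * |orb H Z y|` (`mem_cl`). Let
  `m = |pc H T x₀ ∩ orb H ∅ y|`, `N = |pcs H T x₀|`. By `card_inter` and disjointness
  `|X ∩ orb H ∅ y| = |S| * m` and `|orb H ∅ y| = |zone H T x₀ ∩ orb H ∅ y| = N * m` (the zone is invariant and
  contains `y`, so it contains `orb H ∅ y`). So `2 * |X ∩ orb H ∅ y| ≤ |orb H ∅ y| < 2 * |orb H Z y|`, and
  `orb H Z y ⊆ orb H ∅ y` is not contained in `X`: there is `u ∈ H` fixing `Z` with `u y ∉ X`.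
* `Tame.pum`: `pos`, `sys` from `Tame.symmetry` (which gives `k = |pc H T x₀|`). `rem`: `j ≤ N / 2`; choose
  `S ⊆ pcs H T x₀` with `j` elements (`exists_subset_card_eq`), `X = S.biUnion id` has
  `j * k` points, `k * j + k ≤ N * k = |zone| ≤ |Ω|` because `j + 1 ≤ N`; `rem_pieces`.
-/

set_option autoImplicit false

namespace Pool.Agent.Helper87.AS

open Finset

variable {Ω : Type} [Fintype Ω] [DecidableEq Ω] {H : Subgroup (Equiv.Perm Ω)}
  {T K s s₁ M R : ℕ} {x₀ : Ω}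

theorem Tame.card_biUnion_inter (h : Tame H T K s) (hs : 2 ≤ s) (hx₀ : T ≤ (orb H ∅ x₀).card)
    (S : Finset (Finset Ω)) (hS : S ⊆ pcs H T x₀) (y : Ω) :
    (S.biUnion id ∩ orb H ∅ y).card = S.card * (pc H T x₀ ∩ orb H ∅ y).card := by
  have h0 : pc H T x₀ ∈ pcs H T x₀ := mem_pcs.2 ⟨x₀, orb_self H ∅ x₀, rfl⟩
  rw [Finset.biUnion_inter, Finset.card_biUnion]
  · have h1 : ∀ P ∈ S, (id P ∩ orb H ∅ y).card = (pc H T x₀ ∩ orb H ∅ y).card :=
      fun P hP => card_inter (hS hP) h0 y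
    rw [Finset.sum_congr rfl h1, Finset.sum_const, smul_eq_mul]
  · intro P hP P' hP' hne
    exact (h.pcs_disj hs hx₀ (hS hP) (hS hP') hne).mono inter_subset_left inter_subset_left

theorem Tame.rem_pieces (h : Tame H T K s) (hR : R + 1 ≤ s₁)
    (hs : s₁ + 2 * (2 * K + s₁ + 1) + 2 ≤ s)
    (hx₀ : (4 * K * (s + 1) + 1) * T ≤ (orb H ∅ x₀).card) (S : Finset (Finset Ω))
    (hS : S ⊆ pcs H T x₀) (hc : 2 * S.card ≤ (pcs H T x₀).card) : Rem H R (S.biUnion id) := by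
  have hT2 := h.two_le
  have hx₀T : T ≤ (orb H ∅ x₀).card :=
    le_trans (Nat.le_mul_of_pos_left T (Nat.succ_pos _)) hx₀
  have hs2 : 2 ≤ s := by omega
  intro Z hZ hZX y hy
  obtain ⟨P, hPS, hyP⟩ := mem_biUnion.1 hy
  obtain ⟨x, hx, hxP⟩ := mem_pcs.1 (hS hPS)
  have hyx : y ∈ pc H T x := by
    rw [hxP]
    exact hyP
  have horb : orb H ∅ x = orb H ∅ x₀ := orb_eq hx
  have hxbig : (4 * K * (s + 1) + 1) * T ≤ (orb H ∅ x).card := by
    rw [horb]
    exact hx₀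
  have hxT : T ≤ (orb H ∅ x).card := by
    rw [horb]
    exact hx₀T
  have hZx : ∀ z ∈ Z, z ∉ pc H T x := by
    intro z hz hzx
    apply hZX z hz
    rw [mem_biUnion]
    refine ⟨P, hPS, ?_⟩
    rw [← hxP]
    exact hzx
  have hxcl : x ∉ cl H T Z := h.notMem_cl hs hxbig (by omega) hZx
  have hycl : y ∉ cl H T Z := by
    intro hycl
    apply hxcl
    refine h.trans (u := y) (by omega) hycl ?_
    refine cl_mono ?_ (h.pc_symm (by omega) hxT hyx)
    exact singleton_subset_iff.2 (mem_insert_self _ _)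
  have hyT : T ≤ (orb H ∅ y).card := large_of_mem_pc hyx
  have h1 : (orb H ∅ y).card < 2 * (orb H Z y).card := by
    by_contra hcon
    exact hycl (mem_cl.2 ⟨hyT, not_lt.1 hcon⟩)
  have hyz : y ∈ zone H T x₀ := mem_zone.2 ⟨x, hx, hyx⟩
  have h2 : zone H T x₀ ∩ orb H ∅ y = orb H ∅ y := by
    rw [inter_eq_right]
    intro w hw
    obtain ⟨g, hg, -, rfl⟩ := mem_orb.1 hw
    exact zone_inv hg hyz
  have h3 := h.card_biUnion_inter hs2 hx₀T (pcs H T x₀) (Finset.Subset.refl _) y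
  rw [biUnion_pcs, h2] at h3
  have h4 := h.card_biUnion_inter hs2 hx₀T S hS y
  by_contra hcon
  push Not at hcon
  have h5 : orb H Z y ⊆ S.biUnion id ∩ orb H ∅ y := by
    intro w hw
    rw [mem_inter]
    refine ⟨?_, orb_mono (empty_subset _) y hw⟩
    obtain ⟨g, hg, hg', rfl⟩ := mem_orb.1 hw
    exact hcon g hg hg'
  have h6 := card_le_card h5
  rw [h4] at h6
  have h7 : 2 * S.card * (pc H T x₀ ∩ orb H ∅ y).card ≤
      (pcs H T x₀).card * (pc H T x₀ ∩ orb H ∅ y).card := Nat.mul_le_mul_right _ hc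
  rw [mul_assoc] at h7
  omega

theorem Tame.pum (h : Tame H T K s) (hs₁ : (R + M * K) * K ^ 2 + R + M + 1 ≤ s₁)
    (hs : s₁ + 2 * (2 * K + s₁ + 1) + 2 ≤ s)
    (hx₀ : (4 * K * (s + 1) + 1) * T ≤ (orb H ∅ x₀).card) (hN : 2 ≤ (pcs H T x₀).card) :
    Pum H M R (pc H T x₀).card ((pcs H T x₀).card / 2) := by
  have hx₀T : T ≤ (orb H ∅ x₀).card :=
    le_trans (Nat.le_mul_of_pos_left T (Nat.succ_pos _)) hx₀
  have hs2 : 2 ≤ s := by omega
  obtain ⟨k, p, hk, hk1, -, hp, hg⟩ := h.symmetry hs₁ hs hx₀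
  subst hk
  refine ⟨hk1, ⟨p, hp, hg⟩, ?_⟩
  intro j hj
  have hjN : j + 1 ≤ (pcs H T x₀).card := by omega
  constructor
  · have h1 := h.card_zone hs2 hx₀T
    have h2 : (zone H T x₀).card ≤ Fintype.card Ω := card_le_univ _
    have h3 : (j + 1) * (pc H T x₀).card ≤ (pcs H T x₀).card * (pc H T x₀).card :=
      Nat.mul_le_mul_right _ hjN
    calc (pc H T x₀).card * j + (pc H T x₀).card = (j + 1) * (pc H T x₀).card := by ring
      _ ≤ Fintype.card Ω := by omega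
  · obtain ⟨S, hS, hSc⟩ := exists_subset_card_eq (show j ≤ (pcs H T x₀).card by omega)
    refine ⟨S.biUnion id, ?_, ?_⟩
    · rw [Finset.card_biUnion]
      · have h1 : ∀ P ∈ S, (id P : Finset Ω).card = (pc H T x₀).card :=
          fun P hP => card_of_mem_pcs (hS hP)
        rw [Finset.sum_congr rfl h1, Finset.sum_const, smul_eq_mul, hSc, mul_comm]
      · intro P hP P' hP' hne
        exact h.pcs_disj hs2 hx₀T (hS hP) (hS hP') hne
    · exact h.rem_pieces (by omega) hs hx₀ S hS (by omega)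

end Pool.Agent.Helper87.AS
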