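import Pool.Agent.Helper87.AT.Zone

/-!
# AT-4: the local group of the pieces of a very large orbit

Proof of `Tame.terminal`. Let `k = |pc H T x₀|` (`≤ K`). Let `P Z e` say: `e : Fin k → Ω` is injective,
there is `x ∈ orb H ∅ x₀` with `∀ y, y ∈ pc H T x ↔ ∃ c, e c = y`, and no `e c` is in `Z`. `P ∅ e₀` for an
enumeration `e₀` of `pc H T x₀`. `exists_terminal` with `R' = R` gives `Z₀`, `e`, `x₁` with
`|Z₀| ≤ R * k ^ 2 ≤ R * K ^ 2`. Put `A = indG H Z₀ e`. Let `Q = pc H T x ∈ pcs H T x₀` contain no point of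
`Z₀`. `Tame.mult` with `m = 1` (see its use in `Sym.lean`) gives `g ∈ H` fixing `Z₀` with `g x₁ = x`. Put
`E c = g (e c)`: it enumerates `g '' pc H T x₁ = pc H T x` (`pc_image`), and `ind H Z₀ E = ind H Z₀ e`
(`ind_conj`). `Locl`: for `Z'` with at most `R` points, none in the block, `P (Z₀ ∪ Z') E` holds, so
`ind H (Z₀ ∪ Z') E = ind H Z₀ E` by the terminal property; so `a ∈ A` is realised by some `g' ∈ H` fixing
`Z₀ ∪ Z'`.
-/

set_option autoImplicit false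

namespace Pool.Agent.Helper87.AS

open Finset

theorem Tame.terminal {Ω : Type} [Fintype Ω] [DecidableEq Ω] {H : Subgroup (Equiv.Perm Ω)}
    {T K s s₁ R : ℕ} {x₀ : Ω} (h : Tame H T K s) (hs₁ : R * K ^ 2 + R + 2 ≤ s₁)
    (hs : s₁ + 2 * (2 * K + s₁ + 1) + 2 ≤ s)
    (hx₀ : (4 * K * (s + 1) + 1) * T ≤ (orb H ∅ x₀).card) :
    ∃ (Z₀ : Finset Ω) (A : Subgroup (Equiv.Perm (Fin (pc H T x₀).card))),
      Z₀.card ≤ R * K ^ 2 ∧ ∀ P ∈ pcs H T x₀, (∀ z ∈ Z₀, z ∉ P) →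
        ∃ E : Fin (pc H T x₀).card → Ω, Function.Injective E ∧ (∀ y, y ∈ P ↔ ∃ c, E c = y) ∧
          (∀ π, π ∈ ind H Z₀ E ↔ π ∈ A) ∧ Locl H R E A := by
  classical
  have hT2 := h.two_le
  have hs1 : 1 ≤ s := by omega
  have hs2 : 2 ≤ s := by omega
  have hlarge : T ≤ (orb H ∅ x₀).card :=
    le_trans (Nat.le_mul_of_pos_left T (by omega)) hx₀
  have hlO : ∀ x ∈ orb H ∅ x₀, T ≤ (orb H ∅ x).card := fun x hx => by rwa [orb_eq hx]
  have hkK : (pc H T x₀).card ≤ K := h.pc_card hs1 x₀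
  obtain ⟨k, hk⟩ : ∃ k, k = (pc H T x₀).card := ⟨_, rfl⟩
  rw [← hk] at hkK ⊢
  obtain ⟨P, hPdef⟩ : ∃ P : Finset Ω → (Fin k → Ω) → Prop, P = fun Z e =>
      ∃ x ∈ orb H ∅ x₀, Function.Injective e ∧ (∀ y, y ∈ pc H T x ↔ ∃ c, e c = y) ∧
        ∀ c, e c ∉ Z := ⟨_, rfl⟩
  have hen : ∃ e₀ : Fin k → Ω, Function.Injective e₀ ∧ ∀ y, y ∈ pc H T x₀ ↔ ∃ c, e₀ c = y := by
    subst hk
    refine ⟨fun c => ((pc H T x₀).equivFin.symm c : Ω), ?_, ?_⟩
    · intro a b hab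
      exact (pc H T x₀).equivFin.symm.injective (Subtype.ext hab)
    · intro y
      constructor
      · intro hy
        exact ⟨(pc H T x₀).equivFin ⟨y, hy⟩, by simp⟩
      · rintro ⟨c, rfl⟩
        exact ((pc H T x₀).equivFin.symm c).2
  obtain ⟨e₀, he₀i, he₀r⟩ := hen
  have hP0 : P ∅ e₀ := by
    rw [hPdef]
    exact ⟨x₀, orb_self H ∅ x₀, he₀i, he₀r, fun c => notMem_empty _⟩
  obtain ⟨Z₀, e, hPe, hZ₀, hterm⟩ := exists_terminal H P e₀ hP0 R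
  have hPe' := hPe
  rw [hPdef] at hPe'
  obtain ⟨x₁, hx₁, hei, her, heZ⟩ := hPe'
  have hZ₀' : Z₀.card ≤ R * K ^ 2 := hZ₀.trans (Nat.mul_le_mul_left _ (Nat.pow_le_pow_left hkK 2))
  refine ⟨Z₀, indG H Z₀ e, hZ₀', ?_⟩
  intro Q hQ hQZ
  obtain ⟨x, hx, rfl⟩ := mem_pcs.1 hQ
  have hx₁Z : ∀ z ∈ Z₀, z ∉ pc H T x₁ := by
    intro z hz hcon
    obtain ⟨c, hc⟩ := (her z).1 hcon
    exact heZ c (hc ▸ hz)
  obtain ⟨g, hgH, hgZ, hgx⟩ := h.mult hs hx₀ (m := 1) (fun _ => x₁) (fun _ => x)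
      (fun _ => hx₁) (fun _ => hx) (fun a b hab => absurd (Subsingleton.elim a b) hab)
      (fun a b hab => absurd (Subsingleton.elim a b) hab) (Z := Z₀) (by omega)
      (fun _ => hx₁Z) (fun _ => hQZ)
  have hgx' := hgx 0
  have hEi : Function.Injective (fun c => g (e c)) := fun a b hab => hei (g.injective hab)
  have hEr : ∀ y, y ∈ pc H T x ↔ ∃ c, (fun c => g (e c)) c = y := by
    intro y
    rw [← hgx', pc_image hgH, mem_image]
    constructor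
    · rintro ⟨w, hw, rfl⟩
      obtain ⟨c, rfl⟩ := (her w).1 hw
      exact ⟨c, rfl⟩
    · rintro ⟨c, rfl⟩
      exact ⟨e c, (her _).2 ⟨c, rfl⟩, rfl⟩
  have hconj := ind_conj (H := H) hgH hgZ e
  refine ⟨fun c => g (e c), hEi, hEr, fun π => ?_, ?_⟩
  · rw [hconj]
    exact mem_indG.symm
  · intro a ha Z' hZ' hEZ'
    have hPZ : P (Z₀ ∪ Z') (fun c => g (e c)) := by
      rw [hPdef]
      refine ⟨x, hx, hEi, hEr, fun c hcon => ?_⟩
      rcases mem_union.1 hcon with hcon | hcon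
      · exact hQZ _ hcon ((hEr _).2 ⟨c, rfl⟩)
      · exact hEZ' c hcon
    have hind := hterm Z' (fun c => g (e c)) hPZ hZ' (by rw [hconj])
    have hmem : a ∈ ind H (Z₀ ∪ Z') (fun c => g (e c)) := by
      rw [hind, hconj]
      exact mem_indG.1 ha
    obtain ⟨u, huH, huZ, hue⟩ := mem_ind.1 hmem
    exact ⟨u, huH, fun z hz => huZ z (mem_union_right _ hz), hue⟩

end Pool.Agent.Helper87.AS
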