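import Pool.Agent.Helper87.AT.LocalG
import Pool.Agent.Helper87.AT.PumC
import Pool.Agent.Helper87.AT.Term
import Pool.Agent.Helper87.AT.Cost
import Pool.Agent.Helper87.AT.Num

/-!
# AT-10: the bound for one class of pieces

Proof of `class_bound`. Let `k = |pc H T x₀|`, `N = |pcs H T x₀|`, `x = log D`, `x' = log (Nat.sqrt D)`,
`y = log μ`, `t = log T`; `1 ≤ k ≤ K`.
* `s₁ := (R + M * K) * K ^ 2 + R + M + 2` satisfies `s₁ + 2 * (2 * K + s₁ + 1) + 2 ≤ s` by `hs`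
  (`3 * s₁ + 4 * K + 4 ≤ (6 * R + 6 * M + 20) * (K + 1) ^ 3`).
* `N * k = |zone| ≥ |orb H ∅ x₀| ≥ (4 * K * (s + 1) + 1) * T` (`card_zone`, `orb_subset_zone`), and
  `k ≤ K`, so `N ≥ 4 * (s + 1) * T`; `N / 2 ≥ T`, `N ≥ s * T`.
* `Tame.pum` and `Bad`: `μ * (N / 2 : ℕ) < exp (lam * k)`, so `y + t ≤ lam * k`.
* `Tame.terminal` gives `Z₀`, `A`; `|Z₀| ≤ R * K ^ 2 ≤ s`. Let `E i`, `i : Fin N'`, be the enumerations of the
  `N'` pieces without points of `Z₀`; `N' ≥ N - |Z₀| ≥ T` (the pieces are disjoint, every point of `Z₀` is in at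
  most one of them), so `N' ≥ 1`. `Bad A M R lam (μ * N')` by `pum_of_local`. All orbits of `A` on `Fin k`
  have at most `k ≤ K ≤ Nat.sqrt D` points (`(4 * K * (s + 1) + 1) * T ≤ Nat.sqrt D`), so `IH` (with
  `Ω = Fin k`, `Y = univ`) gives `log |A| ≤ (A₀ - 4 / x' + 20 * lam * (x' / (x' + log (μ * N')))) * k`, and
  `log (μ * N') = y + log N' ≥ y + t`.
* `Tame.class_cost` and logarithms:
  `log |fixSub H Y'| ≤ (k + 1) * |Z₀| * x + N * (x + log |A|) + log |fixSub H (Y' ∪ zone)|`.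
* `(k + 1) * |Z₀| * x ≤ N * k / x` because `(k + 1) * |Z₀| * x ^ 2 ≤ (K + 1) * R * K ^ 2 * T ≤ s * T ≤ N`.
* `num_class` with `a' = A₀ - 4 / x'`.
-/

set_option autoImplicit false

namespace Pool.Agent.Helper87.AS

open Finset

private theorem bad_local {M R : ℕ} {lam : ℝ} {Ω : Type} [Fintype Ω] [DecidableEq Ω]
    {H : Subgroup (Equiv.Perm Ω)} {μ : ℝ} (hbad : Bad H M R lam μ) {N k : ℕ} (hN : 1 ≤ N)
    (E : Fin N → Fin k → Ω) (hE : ∀ i c j d, E i c = E j d → i = j ∧ c = d)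
    (A : Subgroup (Equiv.Perm (Fin k))) (hloc : ∀ i, Locl H R (E i) A) :
    Bad A M R lam (μ * N) := by
  intro k' J' hJ' hP
  have h1 := pum_of_local hN E hE A hloc hP
  have h2 := hbad k' (N * J') (Nat.mul_pos hN hJ') h1
  push_cast at h2
  rw [mul_assoc]
  exact h2

private theorem card_untouched {Ω : Type} [Fintype Ω] [DecidableEq Ω]
    (S : Finset (Finset Ω)) (hS : ∀ P ∈ S, ∀ P' ∈ S, P ≠ P' → Disjoint P P') (Z : Finset Ω) :
    S.card ≤ (S.filter (fun P => ∀ z ∈ Z, z ∉ P)).card + Z.card := by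
  classical
  have h1 : (S.filter (fun P => ¬ ∀ z ∈ Z, z ∉ P)).card ≤ Z.card := by
    have h2 : ∀ P ∈ S.filter (fun P => ¬ ∀ z ∈ Z, z ∉ P), ∃ z ∈ Z, z ∈ P := by
      intro P hP
      have h3 := (mem_filter.1 hP).2
      push Not at h3
      exact h3
    choose f hf hf' using h2
    rw [← Fintype.card_coe, ← Fintype.card_coe Z]
    refine Fintype.card_le_of_injective (fun P => ⟨f P.1 P.2, hf P.1 P.2⟩) ?_
    intro P P' hPP
    have hPP' : f P.1 P.2 = f P'.1 P'.2 := congrArg Subtype.val hPP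
    by_contra hne
    have hne' : P.1 ≠ P'.1 := fun h => hne (Subtype.ext h)
    have h4 := hS P.1 (mem_filter.1 P.2).1 P'.1 (mem_filter.1 P'.2).1 hne'
    have h5 := hf' P'.1 P'.2
    rw [← hPP'] at h5
    exact disjoint_left.1 h4 (hf' P.1 P.2) h5
  have h6 := card_filter_add_card_filter_not (s := S) (fun P => ∀ z ∈ Z, z ∉ P)
  omega

theorem class_bound {M R : ℕ} {lam A₀ : ℝ} (hlam : 0 < lam) {D : ℕ} (hD16 : 16 ≤ D)
    (IH : Bd M R lam A₀ (Nat.sqrt D)) {Ω : Type} [Fintype Ω] [DecidableEq Ω]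
    {H : Subgroup (Equiv.Perm Ω)} {T K s : ℕ} (h : Tame H T K s)
    (hs : (6 * R + 6 * M + 20) * (K + 1) ^ 3 ≤ s)
    (hTD : (4 * K * (s + 1) + 1) * T ≤ Nat.sqrt D) (hDT : Real.log D ≤ 5 * Real.log T)
    (hDT2 : (Real.log D) ^ 2 ≤ T) (hD : ∀ x, (orb H ∅ x).card ≤ D) {μ : ℝ} (hμ : 1 ≤ μ)
    (hbad : Bad H M R lam μ) {x₀ : Ω}
    (hx₀ : (4 * K * (s + 1) + 1) * T ≤ (orb H ∅ x₀).card) (Y : Finset Ω) :
    Real.log (Nat.card (fixSub H Y)) ≤
      (A₀ - 4 / Real.log (Nat.sqrt D) +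
        20 * lam * (Real.log D / (Real.log D + Real.log μ)) + 1 / Real.log D) *
          (zone H T x₀).card + Real.log (Nat.card (fixSub H (Y ∪ zone H T x₀))) := by
  classical
  have hT2 := h.two_le
  have hx₀T : T ≤ (orb H ∅ x₀).card :=
    le_trans (Nat.le_mul_of_pos_left T (Nat.succ_pos _)) hx₀
  -- the parameter `s₁`
  set s₁ : ℕ := (R + M * K) * K ^ 2 + R + M + 2 with hs₁
  have c1 : K ^ 2 ≤ (K + 1) ^ 3 :=
    (Nat.pow_le_pow_left (Nat.le_succ K) 2).trans (Nat.pow_le_pow_right (Nat.succ_pos K) (by omega))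
  have c2 : K * K ^ 2 ≤ (K + 1) ^ 3 := by
    have := Nat.pow_le_pow_left (Nat.le_succ K) 3
    calc K * K ^ 2 = K ^ 3 := by ring
      _ ≤ (K + 1) ^ 3 := this
  have c3 : K + 1 ≤ (K + 1) ^ 3 := by
    calc K + 1 = (K + 1) ^ 1 := by ring
      _ ≤ (K + 1) ^ 3 := Nat.pow_le_pow_right (Nat.succ_pos K) (by omega)
  have c4 : (K + 1) * K ^ 2 ≤ (K + 1) ^ 3 := by
    calc (K + 1) * K ^ 2 ≤ (K + 1) * (K + 1) ^ 2 :=
          Nat.mul_le_mul_left _ (Nat.pow_le_pow_left (Nat.le_succ K) 2)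
      _ = (K + 1) ^ 3 := by ring
  have hs1 : s₁ + 2 * (2 * K + s₁ + 1) + 2 ≤ s := by
    refine le_trans ?_ hs
    have d1 : R * K ^ 2 ≤ R * (K + 1) ^ 3 := Nat.mul_le_mul_left _ c1
    have d2 : M * (K * K ^ 2) ≤ M * (K + 1) ^ 3 := Nat.mul_le_mul_left _ c2
    have d3 : R * 1 ≤ R * (K + 1) ^ 3 := Nat.mul_le_mul_left _ (by omega)
    have d4 : M * 1 ≤ M * (K + 1) ^ 3 := Nat.mul_le_mul_left _ (by omega)
    have e1 : s₁ = R * K ^ 2 + M * (K * K ^ 2) + R + M + 2 := by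
      rw [hs₁]
      ring
    have e2 : (6 * R + 6 * M + 20) * (K + 1) ^ 3 =
        6 * (R * (K + 1) ^ 3) + 6 * (M * (K + 1) ^ 3) + 20 * (K + 1) ^ 3 := by ring
    rw [e1, e2]
    omega
  have hs2 : 2 ≤ s := by omega
  have hRs : (K + 1) * (R * K ^ 2) ≤ s := by
    refine le_trans ?_ hs
    have e2 : (6 * R + 6 * M + 20) * (K + 1) ^ 3 =
        6 * (R * (K + 1) ^ 3) + 6 * (M * (K + 1) ^ 3) + 20 * (K + 1) ^ 3 := by ring
    have d1 : R * ((K + 1) * K ^ 2) ≤ R * (K + 1) ^ 3 := Nat.mul_le_mul_left _ c4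
    have e3 : (K + 1) * (R * K ^ 2) = R * ((K + 1) * K ^ 2) := by ring
    rw [e2, e3]
    omega
  -- the numbers `k` and `N`
  obtain ⟨k, hk⟩ : ∃ k, k = (pc H T x₀).card := ⟨_, rfl⟩
  obtain ⟨N, hN⟩ : ∃ N, N = (pcs H T x₀).card := ⟨_, rfl⟩
  have hk1 : 1 ≤ (pc H T x₀).card := card_pos.2 ⟨x₀, h.self_mem_pc hx₀T⟩
  have hkK : (pc H T x₀).card ≤ K := h.pc_card (by omega) x₀
  have hK1 : 1 ≤ K := hk1.trans hkK
  have hzone := h.card_zone hs2 hx₀T
  have hNT : 4 * (s + 1) * T ≤ (pcs H T x₀).card := by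
    have h1 := card_le_card (h.orb_subset_zone hx₀T)
    rw [hzone] at h1
    have h2 : (pcs H T x₀).card * (pc H T x₀).card ≤ (pcs H T x₀).card * K :=
      Nat.mul_le_mul_left _ hkK
    have h3 : (4 * (s + 1) * T) * K ≤ (pcs H T x₀).card * K := by
      calc (4 * (s + 1) * T) * K ≤ (4 * (s + 1) * T) * K + T := Nat.le_add_right _ _
        _ = (4 * K * (s + 1) + 1) * T := by ring
        _ ≤ (orb H ∅ x₀).card := hx₀
        _ ≤ (pcs H T x₀).card * (pc H T x₀).card := h1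
        _ ≤ (pcs H T x₀).card * K := h2
    exact Nat.le_of_mul_le_mul_right h3 hK1
  have hNT4 : 4 * T ≤ (pcs H T x₀).card := by
    refine le_trans ?_ hNT
    have : 4 * T * 1 ≤ 4 * T * (s + 1) := Nat.mul_le_mul_left _ (by omega)
    calc 4 * T = 4 * T * 1 := by ring
      _ ≤ 4 * T * (s + 1) := this
      _ = 4 * (s + 1) * T := by ring
  have hsTN : s * T ≤ (pcs H T x₀).card := by
    refine le_trans ?_ hNT
    exact Nat.mul_le_mul_right _ (by omega)
  -- few removable blocks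
  have hpum : Pum H M R (pc H T x₀).card ((pcs H T x₀).card / 2) :=
    h.pum (by omega) hs1 hx₀ (by omega)
  have hb1 := hbad _ _ (show 1 ≤ (pcs H T x₀).card / 2 by omega) hpum
  have hT0 : (0 : ℝ) < T := by
    have : 0 < T := by omega
    exact_mod_cast this
  have hμ0 : (0 : ℝ) < μ := by linarith
  have hyt : Real.log μ + Real.log T ≤ lam * (pc H T x₀).card := by
    have h1 : μ * (T : ℝ) ≤ μ * (((pcs H T x₀).card / 2 : ℕ) : ℝ) := by
      apply mul_le_mul_of_nonneg_left _ hμ0.le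
      have : T ≤ (pcs H T x₀).card / 2 := by omega
      exact_mod_cast this
    rw [← Real.log_mul hμ0.ne' hT0.ne']
    have h2 : Real.log (μ * T) ≤ Real.log (Real.exp (lam * (pc H T x₀).card)) :=
      Real.log_le_log (by positivity) (h1.trans hb1.le)
    rwa [Real.log_exp] at h2
  -- the local group
  have hs₁R : R * K ^ 2 + R + 2 ≤ s₁ := by
    have e1 : s₁ = R * K ^ 2 + M * K * K ^ 2 + R + M + 2 := by
      rw [hs₁]
      ring
    omega
  obtain ⟨Z₀, A, hZ₀, hA⟩ := h.terminal (R := R) (s₁ := s₁) (x₀ := x₀)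
    hs₁R hs1 hx₀
  let S : Finset (Finset Ω) := (pcs H T x₀).filter (fun P => ∀ z ∈ Z₀, z ∉ P)
  have hSsub : ∀ P ∈ S, P ∈ pcs H T x₀ ∧ ∀ z ∈ Z₀, z ∉ P := fun P hP => mem_filter.1 hP
  have hScard : (pcs H T x₀).card ≤ S.card + Z₀.card :=
    card_untouched _ (fun P hP P' hP' hne => h.pcs_disj hs2 hx₀T hP hP' hne) Z₀
  have hZs : Z₀.card ≤ s := by
    refine hZ₀.trans (le_trans ?_ hRs)
    exact Nat.le_mul_of_pos_left _ (Nat.succ_pos _)
  have hST : T ≤ S.card := by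
    have h1 : s * 1 ≤ s * T := Nat.mul_le_mul_left _ (by omega)
    have h2 : 4 * (s + 1) * T = 4 * (s * T) + 4 * T := by ring
    omega
  have hS1 : 1 ≤ S.card := by omega
  let ι := S.equivFin
  have hEx : ∀ i : Fin S.card, ∃ E : Fin (pc H T x₀).card → Ω, Function.Injective E ∧
      (∀ y, y ∈ ((ι.symm i : S) : Finset Ω) ↔ ∃ c, E c = y) ∧
      (∀ π, π ∈ ind H Z₀ E ↔ π ∈ A) ∧ Locl H R E A := by
    intro i
    obtain ⟨h1, h2⟩ := hSsub _ (ι.symm i).2
    exact hA _ h1 h2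
  choose E hEinj hEmem _ hEloc using hEx
  have hE : ∀ i c j d, E i c = E j d → i = j ∧ c = d := by
    intro i c j d hcd
    have hij : i = j := by
      by_contra hne
      have h1 : ((ι.symm i : S) : Finset Ω) ≠ ((ι.symm j : S) : Finset Ω) := by
        intro h2
        exact hne (ι.symm.injective (Subtype.ext h2))
      have h3 := h.pcs_disj hs2 hx₀T (hSsub _ (ι.symm i).2).1 (hSsub _ (ι.symm j).2).1 h1
      refine disjoint_left.1 h3 ((hEmem i _).2 ⟨c, rfl⟩) ?_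
      rw [hcd]
      exact (hEmem j _).2 ⟨d, rfl⟩
    subst hij
    exact ⟨rfl, hEinj i hcd⟩
  have hbadA : Bad A M R lam (μ * S.card) := bad_local hbad hS1 E hE A hEloc
  have hSR : (1 : ℝ) ≤ (S.card : ℝ) := by exact_mod_cast hS1
  have hSR0 : (0 : ℝ) < (S.card : ℝ) := by linarith
  have hKD : K ≤ Nat.sqrt D := by
    refine le_trans ?_ hTD
    have h1 : K * 1 ≤ K * (4 * (s + 1) * T) :=
      Nat.mul_le_mul_left _ (Nat.mul_pos (by omega) (by omega))
    have h2 : (4 * K * (s + 1) + 1) * T = K * (4 * (s + 1) * T) + T := by ring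
    omega
  have hlogA := IH (Fin (pc H T x₀).card) A univ (μ * S.card)
    (one_le_mul_of_one_le_of_one_le hμ hSR)
    (fun x => ((card_le_univ _).trans (by rw [Fintype.card_fin])).trans (hkK.trans hKD))
    (fun g _ x hx => absurd (mem_univ x) hx) hbadA
  rw [card_univ, Fintype.card_fin] at hlogA
  -- logarithms
  have hsq4 : 4 ≤ Nat.sqrt D := by
    rw [Nat.le_sqrt]
    omega
  have hsqR : (4 : ℝ) ≤ (Nat.sqrt D : ℝ) := by exact_mod_cast hsq4
  have hDR : (16 : ℝ) ≤ (D : ℝ) := by exact_mod_cast hD16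
  have hx : 0 < Real.log D := Real.log_pos (by linarith)
  have hx' : 0 < Real.log (Nat.sqrt D) := Real.log_pos (by linarith)
  have hxx' : 2 * Real.log (Nat.sqrt D) ≤ Real.log D := by
    have h1 : ((Nat.sqrt D : ℕ) : ℝ) ^ 2 ≤ (D : ℝ) := by
      have := Nat.sqrt_le' D
      exact_mod_cast this
    have h2 : Real.log (((Nat.sqrt D : ℕ) : ℝ) ^ 2) ≤ Real.log D :=
      Real.log_le_log (by positivity) h1
    rw [Real.log_pow] at h2
    exact_mod_cast h2
  have hy : 0 ≤ Real.log μ := Real.log_nonneg hμ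
  have hy' : Real.log μ + Real.log T ≤ Real.log (μ * S.card) := by
    rw [Real.log_mul hμ0.ne' hSR0.ne']
    have : Real.log T ≤ Real.log S.card :=
      Real.log_le_log hT0 (by exact_mod_cast hST)
    linarith
  have hkR : (1 : ℝ) ≤ ((pc H T x₀).card : ℝ) := by exact_mod_cast hk1
  have hNR : (0 : ℝ) ≤ ((pcs H T x₀).card : ℝ) := Nat.cast_nonneg _
  have h3 : (((pc H T x₀).card : ℝ) + 1) * (Z₀.card : ℝ) * Real.log D ≤
      ((pcs H T x₀).card : ℝ) * ((pc H T x₀).card : ℝ) / Real.log D := by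
    rw [le_div_iff₀ hx]
    have h1 : ((pc H T x₀).card + 1) * Z₀.card * T ≤ (pcs H T x₀).card * (pc H T x₀).card := by
      calc ((pc H T x₀).card + 1) * Z₀.card * T ≤ ((K + 1) * (R * K ^ 2)) * T := by
            apply Nat.mul_le_mul_right
            exact Nat.mul_le_mul (by omega) hZ₀
        _ ≤ s * T := Nat.mul_le_mul_right _ hRs
        _ ≤ (pcs H T x₀).card := hsTN
        _ ≤ (pcs H T x₀).card * (pc H T x₀).card := Nat.le_mul_of_pos_right _ hk1
    have h2 : (((pc H T x₀).card : ℝ) + 1) * (Z₀.card : ℝ) * (T : ℝ) ≤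
        ((pcs H T x₀).card : ℝ) * ((pc H T x₀).card : ℝ) := by exact_mod_cast h1
    have h4 : (((pc H T x₀).card : ℝ) + 1) * (Z₀.card : ℝ) * (Real.log D) ^ 2 ≤
        (((pc H T x₀).card : ℝ) + 1) * (Z₀.card : ℝ) * (T : ℝ) :=
      mul_le_mul_of_nonneg_left hDT2 (by positivity)
    calc (((pc H T x₀).card : ℝ) + 1) * (Z₀.card : ℝ) * Real.log D * Real.log D
        = (((pc H T x₀).card : ℝ) + 1) * (Z₀.card : ℝ) * (Real.log D) ^ 2 := by ring
      _ ≤ _ := h4.trans h2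
  have hnum := num_class (x := Real.log D) (x' := Real.log (Nat.sqrt D)) (t := Real.log T)
    (y := Real.log μ) (y' := Real.log (μ * S.card)) (lam := lam)
    (a' := A₀ - 4 / Real.log (Nat.sqrt D)) (la := Real.log (Nat.card A))
    (k := ((pc H T x₀).card : ℝ)) (N := ((pcs H T x₀).card : ℝ)) (z := (Z₀.card : ℝ))
    hx hx' hxx' hDT hy hy' hlam (by linarith) hNR hyt hlogA h3
  -- the cost
  have hcost := h.class_cost hs2 hx₀T hD (Z₀ := Z₀) (A := A) (fun P hP hPZ => by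
    obtain ⟨E', h1, h2, h4, -⟩ := hA P hP hPZ
    exact ⟨E', h1, h2, fun π hπ => (h4 π).1 hπ⟩) Y
  have hF0 : (0 : ℝ) < (Nat.card (fixSub H Y) : ℝ) := by exact_mod_cast card_fixSub_pos H Y
  have hF1 : (0 : ℝ) < (Nat.card (fixSub H (Y ∪ zone H T x₀)) : ℝ) := by
    exact_mod_cast card_fixSub_pos H (Y ∪ zone H T x₀)
  have hA0 : (0 : ℝ) < (Nat.card A : ℝ) := by
    have : 0 < Nat.card A := Nat.card_pos
    exact_mod_cast this
  have hD0 : (0 : ℝ) < (D : ℝ) := by linarith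
  have hcostR : (Nat.card (fixSub H Y) : ℝ) ≤
      (D : ℝ) ^ (((pc H T x₀).card + 1) * Z₀.card) *
        ((D : ℝ) * (Nat.card A : ℝ)) ^ (pcs H T x₀).card *
          (Nat.card (fixSub H (Y ∪ zone H T x₀)) : ℝ) := by exact_mod_cast hcost
  have hlog := Real.log_le_log hF0 hcostR
  rw [Real.log_mul (by positivity) hF1.ne', Real.log_mul (by positivity) (by positivity),
    Real.log_pow, Real.log_pow, Real.log_mul hD0.ne' hA0.ne'] at hlog
  push_cast at hlog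
  have hzR : ((zone H T x₀).card : ℝ) = ((pcs H T x₀).card : ℝ) * ((pc H T x₀).card : ℝ) := by
    rw [hzone]
    push_cast
    ring
  rw [hzR]
  have hfin : (A₀ - 4 / Real.log (Nat.sqrt D) +
        20 * lam * (Real.log D / (Real.log D + Real.log μ)) + 1 / Real.log D) *
          (((pcs H T x₀).card : ℝ) * ((pc H T x₀).card : ℝ)) =
      ((pcs H T x₀).card : ℝ) * ((pc H T x₀).card : ℝ) * (A₀ - 4 / Real.log (Nat.sqrt D) +
        20 * lam * (Real.log D / (Real.log D + Real.log μ)) + 1 / Real.log D) := by ring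
  rw [hfin]
  linarith

end Pool.Agent.Helper87.AS
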