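import Pool.Agent.Helper87.AS.Sym

/-!
# Project AT (sharp version of AS): definitions

`Rem G R X`: the set `X` can be removed. `Sys G M R k`: a homogeneous system of `M` blocks of `k` points.
`Pum G M R k J`: there is such a system and sets of `k * j` points can be removed for `j ≤ J`.
`Bad G M R lam μ`: there is no `k`, `J` with `Pum G M R k J` and `μ * J ≥ exp (lam * k)`.
`Locl G R e A`: the block enumerated by `e` has the local group `A`.
-/

set_option autoImplicit false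

namespace Pool.Agent.Helper87.AS

open Finset

variable {Ω : Type} [Fintype Ω] [DecidableEq Ω]

/-- `X` can be removed: its points can be moved out of `X` by elements of `G` fixing any at most `R`
given points outside `X`. -/
def Rem (G : Subgroup (Equiv.Perm Ω)) (R : ℕ) (X : Finset Ω) : Prop :=
  ∀ Z : Finset Ω, Z.card ≤ R → (∀ z ∈ Z, z ∉ X) → ∀ x ∈ X,
    ∃ u ∈ G, (∀ z ∈ Z, u z = z) ∧ u x ∉ X

/-- A homogeneous system of `M` blocks of `k` points. -/
def Sys (G : Subgroup (Equiv.Perm Ω)) (M R k : ℕ) : Prop :=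
  ∃ p : Fin M → Fin k → Ω, (∀ i c j d, p i c = p j d → i = j ∧ c = d) ∧
    ∀ (τ : Equiv.Perm (Fin M)) (Z : Finset Ω), Z.card ≤ R → (∀ i c, p i c ∉ Z) →
      ∃ g ∈ G, (∀ z ∈ Z, g z = z) ∧ ∀ i c, g (p i c) = p (τ i) c

/-- Blocks of `k` points can be added, and up to `J` blocks can be removed. -/
structure Pum (G : Subgroup (Equiv.Perm Ω)) (M R k J : ℕ) : Prop where
  pos : 1 ≤ k
  sys : Sys G M R k
  rem : ∀ j ≤ J, k * j + k ≤ Fintype.card Ω ∧ ∃ X : Finset Ω, X.card = k * j ∧ Rem G R X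

/-- No pumping with many removable blocks. -/
def Bad (G : Subgroup (Equiv.Perm Ω)) (M R : ℕ) (lam μ : ℝ) : Prop :=
  ∀ k J : ℕ, 1 ≤ J → Pum G M R k J → μ * J < Real.exp (lam * k)

/-- The block enumerated by `e` has the local group `A`: all elements of `A` are induced by elements
of `G` fixing any at most `R` given points outside the block. -/
def Locl (G : Subgroup (Equiv.Perm Ω)) (R : ℕ) {k : ℕ} (e : Fin k → Ω)
    (A : Subgroup (Equiv.Perm (Fin k))) : Prop :=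
  ∀ a ∈ A, ∀ Z : Finset Ω, Z.card ≤ R → (∀ c, e c ∉ Z) →
    ∃ g ∈ G, (∀ z ∈ Z, g z = z) ∧ ∀ c, g (e c) = e (a c)

/-- The bound for bad groups all of whose orbits have at most `D` points. -/
def Bd (M R : ℕ) (lam A₀ : ℝ) (D : ℕ) : Prop :=
  ∀ (Ω : Type) [Fintype Ω] [DecidableEq Ω] (G : Subgroup (Equiv.Perm Ω)) (Y : Finset Ω) (μ : ℝ),
    1 ≤ μ → (∀ x, (orb G ∅ x).card ≤ D) → (∀ g ∈ G, ∀ x, x ∉ Y → g x = x) →
    Bad G M R lam μ →
    Real.log (Nat.card G) ≤ (A₀ - 4 / Real.log D +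
      20 * lam * (Real.log D / (Real.log D + Real.log μ))) * Y.card

/-- The pieces of the points of the orbit of `x₀`. -/
noncomputable def pcs (H : Subgroup (Equiv.Perm Ω)) (T : ℕ) (x₀ : Ω) : Finset (Finset Ω) :=
  (orb H ∅ x₀).image (pc H T)

/-- Their union. -/
noncomputable def zone (H : Subgroup (Equiv.Perm Ω)) (T : ℕ) (x₀ : Ω) : Finset Ω :=
  (orb H ∅ x₀).biUnion (pc H T)

variable {G H : Subgroup (Equiv.Perm Ω)} {M R k J : ℕ}

theorem Rem.mono {X : Finset Ω} (h : Rem H R X) (hHG : H ≤ G) : Rem G R X := by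
  intro Z hZ hZX x hx
  obtain ⟨u, hu, h1, h2⟩ := h Z hZ hZX x hx
  exact ⟨u, hHG hu, h1, h2⟩

theorem Sys.mono (h : Sys H M R k) (hHG : H ≤ G) : Sys G M R k := by
  obtain ⟨p, hp, h1⟩ := h
  refine ⟨p, hp, fun τ Z hZ hpZ => ?_⟩
  obtain ⟨g, hg, h2, h3⟩ := h1 τ Z hZ hpZ
  exact ⟨g, hHG hg, h2, h3⟩

theorem Pum.mono (h : Pum H M R k J) (hHG : H ≤ G) : Pum G M R k J := by
  refine ⟨h.pos, h.sys.mono hHG, fun j hj => ?_⟩
  obtain ⟨h1, X, hX, h2⟩ := h.rem j hj
  exact ⟨h1, X, hX, h2.mono hHG⟩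

theorem Bad.mono {lam μ : ℝ} (h : Bad G M R lam μ) (hHG : H ≤ G) : Bad H M R lam μ :=
  fun k J hJ hP => h k J hJ (hP.mono hHG)

theorem fixSub_le (G : Subgroup (Equiv.Perm Ω)) (W : Finset Ω) : fixSub G W ≤ G :=
  fun _ hg => hg.1

theorem fixSub_fixSub (G : Subgroup (Equiv.Perm Ω)) (W Z : Finset Ω) :
    fixSub (fixSub G W) Z = fixSub G (W ∪ Z) := by
  ext g
  constructor
  · rintro ⟨⟨h1, h2⟩, h3⟩
    refine ⟨h1, fun z hz => ?_⟩
    rcases mem_union.1 hz with hz | hz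
    · exact h2 z hz
    · exact h3 z hz
  · rintro ⟨h1, h2⟩
    exact ⟨⟨h1, fun z hz => h2 z (mem_union_left _ hz)⟩, fun z hz => h2 z (mem_union_right _ hz)⟩

end Pool.Agent.Helper87.AS
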