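import Pool.Agent.Helper87.AS.Count
import Pool.Agent.Helper87.AT.PDefs

/-!
# AT-12: removing a removable set does not change the truth of sentences with few variables

Let `B = {x : A // x ∉ X}`.
* `B` is closed under the functions: let `f` have arity `n ≤ q` and `v : Fin n → A` with values outside `X`; if
  `a = funMap f v ∈ X` then (with `Z = univ.image v`, at most `n ≤ q` points) there is `u ∈ autSub L A` fixing
  all `v t` with `u a ∉ X`; but `u a = funMap f (u ∘ v) = a`. Contradiction. So `B` is an induced
  structure (define it, or take a `Substructure`), the inclusion `i : B → A` commutes with the functions and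
  reflects the relations.
* By induction on the bounded formula `ψ` with `n` variables in scope and `mx ψ ≤ q`, for `xs : Fin n → B`:
  `ψ.Realize default xs` in `B` iff `ψ.Realize default (i ∘ xs)` in `A`. Terms, `equal`, `rel`, `imp` are
  clear. `all`: (`A` to `B`) clear. (`B` to `A`) let `a : A`. If `a ∉ X` use the induction hypothesis. If
  `a ∈ X`: `n ≤ q` (`n + 1 ≤ mx ψ`), so there is `u ∈ autSub L A` fixing the `i (xs t)` with `u a ∉ X`; by the
  induction hypothesis `ψ` holds in `A` at `(i ∘ xs, u a) = u (i ∘ xs, a)`, and `u` is an automorphism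
  (`exists_equiv` from `Count.lean`, `StrongHomClass.realize_boundedFormula` or `BoundedFormula.realize_..`),
  so `ψ` holds at `(i ∘ xs, a)`.
* `|B| + |X| = |A|`.
-/

set_option autoImplicit false

namespace Pool.Agent.Helper87.AS

open Finset FirstOrder FirstOrder.Language

private theorem le_mx_down {L : FirstOrder.Language.{0, 0}} {α : Type} {n : ℕ}
    (ψ : L.BoundedFormula α n) : n ≤ mx ψ := by
  induction ψ with
  | falsum => exact le_rfl
  | equal _ _ => exact le_rfl
  | rel _ _ => exact le_rfl
  | imp f g ihf ihg => exact ihf.trans (le_max_left _ _)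
  | all f ih => exact (Nat.le_succ _).trans ih

private theorem closed_down {L : FirstOrder.Language.{0, 0}} {A : Type} [Fintype A]
    [DecidableEq A] [L.Structure A] {q : ℕ} (ha : ∀ n, q < n → IsEmpty (L.Functions n))
    {X : Finset A} (hX : Rem (autSub L A) q X) (n : ℕ) (f : L.Functions n) (v : Fin n → A)
    (hv : ∀ t, v t ∉ X) : Structure.funMap f v ∉ X := by
  intro hx
  have hn : n ≤ q := by
    by_contra h
    exact (ha n (by omega)).false f
  obtain ⟨u, hu, h1, h2⟩ := hX (Finset.univ.image v) (by
      refine Finset.card_image_le.trans ?_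
      simpa using hn) (by
      intro z hz
      obtain ⟨t, _, rfl⟩ := Finset.mem_image.1 hz
      exact hv t) _ hx
  apply h2
  rw [hu.1 n f v]
  have h3 : ⇑u ∘ v = v :=
    funext fun t => h1 _ (Finset.mem_image_of_mem _ (Finset.mem_univ t))
  rw [h3]
  exact hx

/-- The induced structure on the points outside `X`. -/
@[reducible] private def restr (L : FirstOrder.Language.{0, 0}) {A : Type} [L.Structure A]
    (X : Finset A) (hc : ∀ (n : ℕ) (f : L.Functions n) (v : Fin n → A), (∀ t, v t ∉ X) →
      Structure.funMap f v ∉ X) : L.Structure {x : A // x ∉ X} where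
  funMap := fun {n} f v => ⟨Structure.funMap f (Subtype.val ∘ v), hc n f _ fun t => (v t).2⟩
  RelMap := fun {_} r v => Structure.RelMap r (Subtype.val ∘ v)

private theorem term_down {L : FirstOrder.Language.{0, 0}} {A : Type} [L.Structure A]
    {X : Finset A} (hc : ∀ (n : ℕ) (f : L.Functions n) (v : Fin n → A), (∀ t, v t ∉ X) →
      Structure.funMap f v ∉ X) {n : ℕ} (xs : Fin n → {x : A // x ∉ X})
    (t : L.Term (Empty ⊕ Fin n)) :
    t.realize (Sum.elim default (Subtype.val ∘ xs)) =
      (@Term.realize L {x : A // x ∉ X} (restr L X hc) _ (Sum.elim default xs) t).1 := by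
  induction t with
  | var a =>
    rcases a with a | a
    · exact a.elim
    · rfl
  | func f ts ih =>
    have h1 : (fun i => (ts i).realize (Sum.elim default (Subtype.val ∘ xs))) =
        Subtype.val ∘ fun i => @Term.realize L {x : A // x ∉ X} (restr L X hc) _
          (Sum.elim default xs) (ts i) := funext ih
    show Structure.funMap f (fun i => (ts i).realize (Sum.elim default (Subtype.val ∘ xs))) =
      Structure.funMap f (Subtype.val ∘ fun i => @Term.realize L {x : A // x ∉ X} (restr L X hc) _
          (Sum.elim default xs) (ts i))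
    rw [h1]

private theorem down_aux {L : FirstOrder.Language.{0, 0}} {A : Type} [Fintype A]
    [DecidableEq A] [L.Structure A] {q : ℕ} {X : Finset A} (hX : Rem (autSub L A) q X)
    (hc : ∀ (n : ℕ) (f : L.Functions n) (v : Fin n → A), (∀ t, v t ∉ X) →
      Structure.funMap f v ∉ X) {n : ℕ} (ψ : L.BoundedFormula Empty n) :
    mx ψ ≤ q → ∀ xs : Fin n → {x : A // x ∉ X},
      (@BoundedFormula.Realize L {x : A // x ∉ X} (restr L X hc) Empty n ψ default xs ↔
        ψ.Realize default (Subtype.val ∘ xs)) := by
  induction ψ with
  | falsum =>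
    intro _ xs
    exact Iff.rfl
  | @equal n t₁ t₂ =>
    intro _ xs
    show @Term.realize L _ (restr L X hc) _ (Sum.elim default xs) t₁ =
        @Term.realize L _ (restr L X hc) _ (Sum.elim default xs) t₂ ↔
      t₁.realize (Sum.elim default (Subtype.val ∘ xs)) =
        t₂.realize (Sum.elim default (Subtype.val ∘ xs))
    rw [term_down hc xs t₁, term_down hc xs t₂]
    exact Subtype.ext_iff
  | @rel n l R ts =>
    intro _ xs
    have h1 : (fun i => (ts i).realize (Sum.elim default (Subtype.val ∘ xs))) =
        Subtype.val ∘ fun i => @Term.realize L {x : A // x ∉ X} (restr L X hc) _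
          (Sum.elim default xs) (ts i) := funext fun i => term_down hc xs (ts i)
    show Structure.RelMap R (Subtype.val ∘ fun i => @Term.realize L {x : A // x ∉ X}
        (restr L X hc) _ (Sum.elim default xs) (ts i)) ↔
      Structure.RelMap R (fun i => (ts i).realize (Sum.elim default (Subtype.val ∘ xs)))
    rw [h1]
  | @imp n f g ihf ihg =>
    intro hq xs
    have h1 := ihf ((le_max_left _ _).trans hq) xs
    have h2 := ihg ((le_max_right _ _).trans hq) xs
    exact ⟨fun h h3 => h2.1 (h (h1.2 h3)), fun h h3 => h2.2 (h (h1.1 h3))⟩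
  | @all n f ih =>
    intro hq xs
    have hq' : mx f ≤ q := hq
    have hsn : ∀ b : {x : A // x ∉ X}, Subtype.val ∘ (Fin.snoc xs b :
        Fin (n + 1) → {x : A // x ∉ X}) = (Fin.snoc (Subtype.val ∘ xs) b.1 : Fin (n + 1) → A) := by
      intro b
      exact Fin.comp_snoc Subtype.val xs b
    show (∀ b : {x : A // x ∉ X}, @BoundedFormula.Realize L _ (restr L X hc) Empty (n + 1) f
        default (Fin.snoc xs b)) ↔
      ∀ a : A, f.Realize default (Fin.snoc (Subtype.val ∘ xs) a : Fin (n + 1) → A)
    constructor
    · intro h a
      by_cases haX : a ∈ X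
      · obtain ⟨u, hu, h1, h2⟩ := hX (Finset.univ.image (Subtype.val ∘ xs)) (by
            refine Finset.card_image_le.trans ?_
            have h3 := le_mx_down f
            simp only [Finset.card_univ, Fintype.card_fin]
            omega) (by
            intro z hz
            obtain ⟨t, _, rfl⟩ := Finset.mem_image.1 hz
            exact (xs t).2) a haX
        obtain ⟨e, he⟩ := exists_equiv hu
        have h3 := (ih hq' (Fin.snoc xs ⟨u a, h2⟩)).1 (h ⟨u a, h2⟩)
        rw [hsn] at h3
        have h4 : (Fin.snoc (Subtype.val ∘ xs) (u a) : Fin (n + 1) → A) =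
            e ∘ (Fin.snoc (Subtype.val ∘ xs) a : Fin (n + 1) → A) := by
          rw [Fin.comp_snoc, he a]
          congr 1
          funext t
          show (xs t).1 = e (xs t).1
          rw [he]
          exact (h1 _ (Finset.mem_image_of_mem _ (Finset.mem_univ t))).symm
        have h5 : (default : Empty → A) = e ∘ (default : Empty → A) := Subsingleton.elim _ _
        have h6 : f.Realize (e ∘ (default : Empty → A))
            (e ∘ (Fin.snoc (Subtype.val ∘ xs) a : Fin (n + 1) → A)) := by
          rw [← h5, ← h4]
          exact h3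
        exact (StrongHomClass.realize_boundedFormula e f).1 h6
      · have h3 := (ih hq' (Fin.snoc xs ⟨a, haX⟩)).1 (h ⟨a, haX⟩)
        rw [hsn] at h3
        exact h3
    · intro h b
      refine (ih hq' (Fin.snoc xs b)).2 ?_
      rw [hsn]
      exact h b.1

theorem down {L : FirstOrder.Language.{0, 0}} {A : Type} [Fintype A] [DecidableEq A]
    [L.Structure A] {q : ℕ} (ha : ∀ n, q < n → IsEmpty (L.Functions n)) {X : Finset A}
    (hX : Rem (autSub L A) q X) (φ : L.Sentence) (hφ : mx φ ≤ q) (hA : φ.Realize A) :
    ∃ (B : Type) (_ : L.Structure B), Nat.card B + X.card = Nat.card A ∧ φ.Realize B := by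
  have hc : ∀ (n : ℕ) (f : L.Functions n) (v : Fin n → A), (∀ t, v t ∉ X) →
      Structure.funMap f v ∉ X := closed_down ha hX
  refine ⟨{x : A // x ∉ X}, restr L X hc, ?_, ?_⟩
  · have h1 : Fintype.card {x : A // x ∉ X} = Xᶜ.card := by
      rw [Fintype.card_subtype]
      congr 1
      ext x
      simp
    rw [Nat.card_eq_fintype_card, Nat.card_eq_fintype_card, h1, add_comm,
      Finset.card_add_card_compl]
  · have h1 := down_aux hX hc φ hφ (default : Fin 0 → {x : A // x ∉ X})
    have h2 : (Subtype.val ∘ (default : Fin 0 → {x : A // x ∉ X}) : Fin 0 → A) = default :=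
      Subsingleton.elim _ _
    rw [h2] at h1
    exact h1.2 hA

end Pool.Agent.Helper87.AS
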