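import Mathlib

/-!
# AT-17: asymptotics

Proof of `few_asym`. `n ^ n ≤ 3 ^ n * n!` (e.g. `Real.pow_div_factorial_le_exp` and `exp 1 < 3`). So it
suffices that `A * n ^ A * (6 * p * C) ^ n * n ^ (n - j) ≤ n ^ n`, i.e. (as `j ≤ n`)
`A * n ^ A * (6 * p * C) ^ n ≤ n ^ j`. Take `p`-th powers: with `n ≤ A + p * j` it suffices that
`A ^ p * n ^ (A * p + A) * B ^ n ≤ n ^ n` for `B = (6 * p * C) ^ p` (multiply both sides by `n ^ A`:
`n ^ n ≤ n ^ (A + p * j)`), true for `n` large: `n ^ n ≥ (2 * B) ^ n` for `n ≥ 2 * B`, and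
`2 ^ n ≥ A ^ p * n ^ (A * p + A)` for `n` large.
-/

set_option autoImplicit false

namespace Pool.Agent.Helper87.AS

theorem few_asym (A p C : ℕ) (hp : 0 < p) : ∃ n₀ : ℕ, ∀ n, n₀ ≤ n → ∀ j, n ≤ A + p * j →
    j ≤ n → A * (n ^ A * (2 ^ n * n ^ (n - j) * p ^ n)) * C ^ n ≤ n.factorial := by
  have hexp : ∀ n : ℕ, n ^ n ≤ 3 ^ n * n.factorial := by
    intro n
    have h1 := Real.pow_div_factorial_le_exp (x := (n : ℝ)) (Nat.cast_nonneg n) n
    have h2 : Real.exp (n : ℝ) ≤ 3 ^ n := by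
      have h3 : Real.exp (n : ℝ) = Real.exp 1 ^ n := by
        rw [← Real.exp_nat_mul, mul_one]
      rw [h3]
      exact pow_le_pow_left₀ (Real.exp_pos 1).le Real.exp_one_lt_three.le n
    have hf : (0 : ℝ) < (n.factorial : ℝ) := by exact_mod_cast Nat.factorial_pos n
    have h4 : (n : ℝ) ^ n ≤ 3 ^ n * (n.factorial : ℝ) := by
      have := h1.trans h2
      rwa [div_le_iff₀ hf] at this
    exact_mod_cast h4
  have hlim : ∃ n₁ : ℕ, ∀ n, n₁ ≤ n → A ^ p * n ^ (A * p + A) ≤ 2 ^ n := by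
    have ht := tendsto_pow_const_div_const_pow_of_one_lt (A * p + A) (r := (2 : ℝ)) one_lt_two
    have hK : (0 : ℝ) < 1 / ((A : ℝ) ^ p + 1) := by positivity
    have he := ht.eventually (gt_mem_nhds hK)
    rw [Filter.eventually_atTop] at he
    obtain ⟨n₁, hn₁⟩ := he
    refine ⟨n₁, fun n hn => ?_⟩
    have h := hn₁ n hn
    have h2 : (0 : ℝ) < 2 ^ n := by positivity
    have hA : (0 : ℝ) < (A : ℝ) ^ p + 1 := by positivity
    rw [div_lt_div_iff₀ h2 hA] at h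
    have h3 : (A : ℝ) ^ p * (n : ℝ) ^ (A * p + A) ≤ 2 ^ n := by
      have h4 : (0 : ℝ) ≤ (n : ℝ) ^ (A * p + A) := by positivity
      nlinarith
    exact_mod_cast h3
  obtain ⟨n₁, hn₁⟩ := hlim
  refine ⟨max (max n₁ (2 * (6 * p * C) ^ p)) 1, fun n hn j hj hjn => ?_⟩
  have hn1 : n₁ ≤ n := le_trans (le_max_left _ _) (le_trans (le_max_left _ _) hn)
  have hn2 : 2 * (6 * p * C) ^ p ≤ n := le_trans (le_max_right _ _) (le_trans (le_max_left _ _) hn)
  have hn3 : 1 ≤ n := le_trans (le_max_right _ _) hn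
  have h5 := hn₁ n hn1
  have hB : A ^ p * n ^ (A * p + A) * ((6 * p * C) ^ p) ^ n ≤ n ^ n := by
    calc A ^ p * n ^ (A * p + A) * ((6 * p * C) ^ p) ^ n
        ≤ 2 ^ n * ((6 * p * C) ^ p) ^ n := Nat.mul_le_mul_right _ h5
      _ = (2 * (6 * p * C) ^ p) ^ n := (mul_pow 2 ((6 * p * C) ^ p) n).symm
      _ ≤ n ^ n := Nat.pow_le_pow_left hn2 n
  have h6 : n ^ n ≤ n ^ A * n ^ (p * j) := by
    rw [← pow_add]
    exact Nat.pow_le_pow_right hn3 hj
  have h7 : (A * n ^ A * (6 * p * C) ^ n) ^ p ≤ (n ^ j) ^ p := by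
    have hpos : 0 < n ^ A := pow_pos hn3 A
    refine Nat.le_of_mul_le_mul_left ?_ hpos
    calc n ^ A * (A * n ^ A * (6 * p * C) ^ n) ^ p
        = A ^ p * n ^ (A * p + A) * ((6 * p * C) ^ p) ^ n := by
          rw [mul_pow, mul_pow, ← pow_mul, ← pow_mul, ← pow_mul, pow_add, mul_comm n p]
          ring
      _ ≤ n ^ n := hB
      _ ≤ n ^ A * n ^ (p * j) := h6
      _ = n ^ A * (n ^ j) ^ p := by rw [← pow_mul, mul_comm j p]
  have h8 : A * n ^ A * (6 * p * C) ^ n ≤ n ^ j := le_of_pow_le_pow_left₀ hp.ne' (Nat.zero_le _) h7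
  have h9 : A * n ^ A * (6 * p * C) ^ n * n ^ (n - j) ≤ n ^ n := by
    calc A * n ^ A * (6 * p * C) ^ n * n ^ (n - j) ≤ n ^ j * n ^ (n - j) :=
          Nat.mul_le_mul_right _ h8
      _ = n ^ n := by rw [← pow_add, Nat.add_sub_cancel' hjn]
  have h10 := h9.trans (hexp n)
  refine Nat.le_of_mul_le_mul_left ?_ (pow_pos (show 0 < 3 by norm_num) n)
  calc 3 ^ n * (A * (n ^ A * (2 ^ n * n ^ (n - j) * p ^ n)) * C ^ n)
      = A * n ^ A * (6 * p * C) ^ n * n ^ (n - j) := by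
        rw [mul_pow, mul_pow, show (6 : ℕ) = 3 * 2 from rfl, mul_pow]
        ring
    _ ≤ 3 ^ n * n.factorial := h10

end Pool.Agent.Helper87.AS
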