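import Pool.Agent.Helper87.AT.FewDefs

/-!
# AT-15: sizes of the models

* `PM.card`: as `APModel.card` in `Helper31/Spectra.lean`: the set of constants has exactly `a` elements
  (the first `a` constants, `a ≤ A`), the rest is a union of blocks of `p` points; if `a < N` there is no
  rest. (One can restrict `c` to the first `a` indices and use `APModel.card` directly: if `N ≤ a` then
  `APModel (fun i : Fin a => c (Fin.castLE ha i)) s` holds.)
* `exists_PM`: `M = Fin a ⊕ (Fin j × Fin p)`, `c i = inl i` for `i < a`, `c i = inl 0` otherwise,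
  `s i (inl x) = inl x`, `s i (inr (b, x)) = inr (b, i)`.
-/

set_option autoImplicit false

namespace Pool.Agent.Helper87.AS

open Pool.Agent.Helper31.Spectra

theorem PM.card {A p N a : ℕ} (ha : a ≤ A) {M : Type} [Finite M] {c : Fin A → M}
    {s : Fin p → M → M} (h : PM N a c s) : ∃ j, Nat.card M = a + p * j ∧ (a < N → j = 0) := by
  have hinj : ∀ i j : Fin a, i ≠ j → c (Fin.castLE ha i) ≠ c (Fin.castLE ha j) := by
    intro i j hij
    apply h.cinj _ _ i.2 j.2
    intro he
    apply hij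
    apply Fin.ext
    have := congrArg Fin.val he
    simpa using this
  have hcov : ∀ x, (∃ i, x = c i) → ∃ i : Fin a, x = c (Fin.castLE ha i) := by
    rintro x ⟨i, rfl⟩
    by_cases hi : i.1 < a
    · exact ⟨⟨i.1, hi⟩, rfl⟩
    · obtain ⟨j, hj, hcj⟩ := h.ctriv i (not_lt.1 hi)
      exact ⟨⟨j.1, hj⟩, hcj⟩
  by_cases haN : a < N
  · have hm : APModel (fun i : Fin a => c (Fin.castLE ha i)) (fun (i : Fin 0) (x : M) => x) := by
      refine ⟨hinj, fun x => Or.inl (hcov x ?_)⟩
      rcases h.ax x with h1 | h1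
      · exact h1
      · exact absurd h1.1 (not_le.2 haN)
    obtain ⟨j, hj⟩ := hm.card
    refine ⟨0, ?_, fun _ => rfl⟩
    rw [hj]
    simp
  · have hm : APModel (fun i : Fin a => c (Fin.castLE ha i)) s := by
      refine ⟨hinj, fun x => ?_⟩
      rcases h.ax x with h1 | ⟨_, h1, h2, h3, h4⟩
      · exact Or.inl (hcov x h1)
      · exact Or.inr ⟨fun i j => h1 i _, h2, h3, h4⟩
    obtain ⟨j, hj⟩ := hm.card
    exact ⟨j, hj, fun h' => absurd h' haN⟩

theorem exists_PM {A p N a : ℕ} (ha0 : 0 < a) (ha : a ≤ A) (j : ℕ) (hj : a < N → j = 0) :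
    ∃ (M : Type) (_ : Finite M) (c : Fin A → M) (s : Fin p → M → M),
      Nat.card M = a + p * j ∧ PM N a c s := by
  classical
  set c : Fin A → Fin a ⊕ (Fin j × Fin p) :=
    fun i => if h : i.1 < a then Sum.inl ⟨i.1, h⟩ else Sum.inl ⟨0, ha0⟩ with hc
  set s : Fin p → Fin a ⊕ (Fin j × Fin p) → Fin a ⊕ (Fin j × Fin p) :=
    fun i => Sum.elim Sum.inl (fun z => Sum.inr (z.1, i)) with hs
  have hc1 : ∀ (i : Fin A) (h : i.1 < a), c i = Sum.inl ⟨i.1, h⟩ := by
    intro i h
    simp only [hc]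
    rw [dif_pos h]
  have hc2 : ∀ (i : Fin A), ¬ i.1 < a → c i = Sum.inl ⟨0, ha0⟩ := by
    intro i h
    simp only [hc]
    rw [dif_neg h]
  have hc3 : ∀ i : Fin A, ∃ x : Fin a, c i = Sum.inl x := by
    intro i
    by_cases h : i.1 < a
    · exact ⟨_, hc1 i h⟩
    · exact ⟨_, hc2 i h⟩
  refine ⟨Fin a ⊕ (Fin j × Fin p), inferInstance, c, s, ?_, ?_, ?_, ?_, ?_⟩
  · rw [Nat.card_sum, Nat.card_prod, Nat.card_eq_fintype_card, Nat.card_eq_fintype_card,
      Nat.card_eq_fintype_card, Fintype.card_fin, Fintype.card_fin, Fintype.card_fin]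
    ring
  · intro i i' hi hi' hne he
    rw [hc1 i hi, hc1 i' hi'] at he
    apply hne
    apply Fin.ext
    have h1 := Sum.inl_injective he
    exact Fin.mk.inj_iff.1 h1
  · intro i hi
    refine ⟨⟨0, lt_of_lt_of_le ha0 ha⟩, ha0, ?_⟩
    rw [hc2 i (not_lt.2 hi), hc1 ⟨0, lt_of_lt_of_le ha0 ha⟩ ha0]
  · intro i i'
    obtain ⟨x, hx⟩ := hc3 i'
    rw [hx]
    rfl
  · rintro (x | ⟨b, x⟩)
    · left
      refine ⟨Fin.castLE ha x, ?_⟩
      rw [hc1 (Fin.castLE ha x) x.2]
      rfl
    · right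
      refine ⟨?_, ?_, ?_, ?_, ?_⟩
      · by_contra hN
        have h0 := hj (not_le.1 hN)
        have := b.2
        omega
      · intro i i' he
        obtain ⟨y, hy⟩ := hc3 i'
        rw [hy] at he
        exact Sum.inr_ne_inl he
      · intro i i' hii he
        apply hii
        have h1 := Sum.inr_injective he
        exact (Prod.ext_iff.1 h1).2
      · intro i i'
        rfl
      · exact ⟨x, rfl⟩

end Pool.Agent.Helper87.AS
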