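import Pool.Agent.Helper87.AT.FewDefs

/-!
# AT-16: the number of labelled models

Proof of `PM_count`. For `(c, s)` with `PM N a c s` let `f = s 0 : Fin n → Fin n` and, for `x`, let `d x : Fin p` be the
`i` with `x = s i x` if `x` is not a constant (it is unique by the third condition) and `0` otherwise.
* `(c, f, d)` determines `s`: on constants `s i x = x`. If `x` is not a constant then `y = s i x` is the
  only point which is not a constant and satisfies `f y = f x`, `d y = i`: it does (`s 0 (s i x) = s 0 x`,
  `s i y = y`), and if `y'` does, `y' = s i y' = s i (s 0 y') = s i (s 0 x) = s i x`.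
* `f` is idempotent (`s 0 (s 0 x) = s 0 x`, constants are fixed) and has exactly `a + j` fixed points: the
  constants and one point in each block (`n = a + p * j`; the blocks of the rest are the fibres of `f`, with
  `p` points each, so there are `j` of them). We only need: at least `j` fixed points, so the complement of the set
  `E` of fixed points has at most `n - j` points. `f` is determined by `E` and the restriction of `f` to the
  complement: at most `2 ^ n * n ^ (n - j)` possibilities (`n ≥ 1`; if `n = 0` everything is trivial).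
* `c`: at most `n ^ A`, `d`: at most `p ^ n` possibilities.
-/

set_option autoImplicit false

namespace Pool.Agent.Helper87.AS

/-- A function on `Fin n` with at least `j` fixed points is determined by the set of its fixed
points and `n - j` values. -/
lemma fcode_exists (n j : ℕ) :
    ∃ code : (Fin n → Fin n) → Finset (Fin n) × (Fin (n - j) → Fin n),
      ∀ f g : Fin n → Fin n, j ≤ (Finset.univ.filter (fun x => f x = x)).card →
        code f = code g → f = g := by
  classical
  let fx : (Fin n → Fin n) → Finset (Fin n) := fun f => Finset.univ.filter (fun x => f x = x)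
  let val : (Fin n → Fin n) → (Fin (n - j) → Fin n) := fun f i =>
    if h : Nonempty ({x // x ∉ fx f} ↪ Fin (n - j)) then
      (if h2 : ∃ x, h.some x = i then f (h2.choose).1 else Fin.castLE (Nat.sub_le n j) i)
    else Fin.castLE (Nat.sub_le n j) i
  refine ⟨fun f => (fx f, val f), fun f g hf hfg => ?_⟩
  obtain ⟨h1, h2⟩ := Prod.mk.inj hfg
  have hne : Nonempty ({x // x ∉ fx f} ↪ Fin (n - j)) := by
    apply Function.Embedding.nonempty_of_card_le
    have e1 : Fintype.card {x // x ∉ fx f} = n - (fx f).card := by
      rw [Fintype.card_subtype_compl]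
      simp
    rw [e1, Fintype.card_fin]
    have : j ≤ (fx f).card := hf
    omega
  funext x
  by_cases hx : x ∈ fx f
  · have hx' : x ∈ fx g := h1 ▸ hx
    have e1 : f x = x := (Finset.mem_filter.mp hx).2
    have e2 : g x = x := (Finset.mem_filter.mp hx').2
    rw [e1, e2]
  · -- the value at the code of x
    have key : ∀ (E : Finset (Fin n)) (hE : fx g = E)
        (hn : Nonempty ({x // x ∉ E} ↪ Fin (n - j))) (hxE : x ∉ E),
        val g (hn.some ⟨x, hxE⟩) = g x := by
      intro E hE hn hxE
      subst hE
      have h3 : ∃ y, hn.some y = hn.some ⟨x, hxE⟩ := ⟨_, rfl⟩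
      show (if h : Nonempty ({x // x ∉ fx g} ↪ Fin (n - j)) then
        (if h2 : ∃ y, h.some y = hn.some ⟨x, hxE⟩ then g (h2.choose).1
          else Fin.castLE (Nat.sub_le n j) (hn.some ⟨x, hxE⟩))
        else Fin.castLE (Nat.sub_le n j) (hn.some ⟨x, hxE⟩)) = g x
      rw [dif_pos hn, dif_pos h3]
      have h4 : h3.choose = ⟨x, hxE⟩ := hn.some.injective h3.choose_spec
      rw [h4]
    have key2 : val f (hne.some ⟨x, hx⟩) = f x := by
      have h3 : ∃ y, hne.some y = hne.some ⟨x, hx⟩ := ⟨_, rfl⟩
      show (if h : Nonempty ({x // x ∉ fx f} ↪ Fin (n - j)) then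
        (if h2 : ∃ y, h.some y = hne.some ⟨x, hx⟩ then f (h2.choose).1
          else Fin.castLE (Nat.sub_le n j) (hne.some ⟨x, hx⟩))
        else Fin.castLE (Nat.sub_le n j) (hne.some ⟨x, hx⟩)) = f x
      rw [dif_pos hne, dif_pos h3]
      have h4 : h3.choose = ⟨x, hx⟩ := hne.some.injective h3.choose_spec
      rw [h4]
    rw [← key2, ← key (fx f) h1.symm hne hx, h2]

theorem PM_count {A p N a n j : ℕ} (hp : 0 < p) (ha : a ≤ A) (hn : n = a + p * j) :
    Nat.card {x : (Fin A → Fin n) × (Fin p → Fin n → Fin n) // PM N a x.1 x.2} ≤
      n ^ A * (2 ^ n * n ^ (n - j) * p ^ n) := by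
  classical
  obtain ⟨code, hcode⟩ := fcode_exists n j
  let z : Fin p := ⟨0, hp⟩
  let d : (Fin p → Fin n → Fin n) → Fin n → Fin p := fun s x =>
    if h : ∃ i, x = s i x then h.choose else z
  have hd : ∀ (s : Fin p → Fin n → Fin n) (x : Fin n), (∃ i, x = s i x) → x = s (d s x) x := by
    intro s x h
    have : d s x = h.choose := dif_pos h
    rw [this]
    exact h.choose_spec
  -- at least `j` fixed points
  have hfix : ∀ (c : Fin A → Fin n) (s : Fin p → Fin n → Fin n), PM N a c s →
      j ≤ (Finset.univ.filter (fun x => s z x = x)).card := by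
    intro c s h
    let C : Finset (Fin n) := Finset.univ.filter (fun x => ∃ i, x = c i)
    let F : Finset (Fin n) := Finset.univ.filter (fun x => s z x = x)
    have hC : C.card ≤ a := by
      have h1 : C ⊆ (Finset.univ.filter (fun i : Fin A => i.1 < a)).image c := by
        intro x hx
        obtain ⟨i, hi⟩ := (Finset.mem_filter.mp hx).2
        rw [Finset.mem_image]
        by_cases hia : i.1 < a
        · exact ⟨i, Finset.mem_filter.mpr ⟨Finset.mem_univ _, hia⟩, hi.symm⟩
        · obtain ⟨k, hk, hck⟩ := h.ctriv i (by omega)
          exact ⟨k, Finset.mem_filter.mpr ⟨Finset.mem_univ _, hk⟩, by rw [hi, hck]⟩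
      have h2 : (Finset.univ.filter (fun i : Fin A => i.1 < a)).card ≤ a := by
        have h3 : (Finset.univ.filter (fun i : Fin A => i.1 < a)).card ≤ (Finset.range a).card := by
          refine Finset.card_le_card_of_injOn (fun i => i.1) (fun i hi => ?_) (fun i _ k _ hik => ?_)
          · have := (Finset.mem_filter.mp (Finset.mem_coe.mp hi)).2
            exact Finset.mem_coe.mpr (Finset.mem_range.mpr this)
          · exact Fin.ext hik
        rwa [Finset.card_range] at h3
      exact (Finset.card_le_card h1).trans (Finset.card_image_le.trans h2)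
    have hsub : Cᶜ ⊆ (F ×ˢ (Finset.univ : Finset (Fin p))).image (fun q => s q.2 q.1) := by
      intro y hy
      have hy' : ¬ ∃ i, y = c i := by
        intro hc
        rw [Finset.mem_compl] at hy
        exact hy (Finset.mem_filter.mpr ⟨Finset.mem_univ _, hc⟩)
      rcases h.ax y with hc | ⟨_, h1, h2, h3, h4⟩
      · exact absurd hc hy'
      · obtain ⟨i, hi⟩ := h4
        rw [Finset.mem_image]
        refine ⟨(s z y, i), Finset.mem_product.mpr ⟨?_, Finset.mem_univ _⟩, ?_⟩
        · exact Finset.mem_filter.mpr ⟨Finset.mem_univ _, h3 z z⟩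
        · show s i (s z y) = y
          rw [h3 z i, ← hi]
    have h5 : Cᶜ.card ≤ F.card * p := by
      refine (Finset.card_le_card hsub).trans (Finset.card_image_le.trans ?_)
      rw [Finset.card_product, Finset.card_univ, Fintype.card_fin]
    have h6 : Cᶜ.card = n - C.card := by
      rw [Finset.card_compl, Fintype.card_fin]
    have h7 : p * j ≤ p * F.card := by
      rw [mul_comm p F.card]
      omega
    exact Nat.le_of_mul_le_mul_left h7 hp
  -- `(c, f, d)` determines `s`
  have hdet : ∀ (c : Fin A → Fin n) (s s' : Fin p → Fin n → Fin n), PM N a c s → PM N a c s' →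
      s z = s' z → d s = d s' → s = s' := by
    intro c s s' h h' hf hdd
    funext i x
    by_cases hx : ∃ k, x = c k
    · obtain ⟨k, rfl⟩ := hx
      rw [h.sc, h'.sc]
    · rcases h.ax x with hc | ⟨_, h1, h2, h3, h4⟩
      · exact absurd hc hx
      · have hy : ¬ ∃ k, s i x = c k := by
          rintro ⟨k, hk⟩
          exact h1 i k hk
        have hd1 : s i x = s (d s (s i x)) (s i x) := hd s (s i x) ⟨i, (h3 i i).symm⟩
        rw [h3 i (d s (s i x))] at hd1
        have hdi : d s (s i x) = i := by
          by_contra hne
          exact h2 i (d s (s i x)) (Ne.symm hne) hd1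
        rcases h'.ax (s i x) with hc | ⟨_, g1, g2, g3, g4⟩
        · exact absurd hc hy
        · have e1 := hd s' (s i x) g4
          have e2 : d s' (s i x) = i := by rw [← hdd, hdi]
          rw [e2] at e1
          -- `s i x = s' i (s i x) = s' i (f (s i x)) = s' i (f x) = s' i x`
          have e3 : s' i (s' z (s i x)) = s' i (s i x) := g3 z i
          have e4 : s' z (s i x) = s' z x := by
            rw [← hf]
            exact h3 i z
          rcases h'.ax x with hc | ⟨_, k1, k2, k3, k4⟩
          · exact absurd hc hx
          · have e5 : s' i (s' z x) = s' i x := k3 z i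
            rw [e4, e5] at e3
            rw [e3]
            exact e1
  let Φ : {x : (Fin A → Fin n) × (Fin p → Fin n → Fin n) // PM N a x.1 x.2} →
      (Fin A → Fin n) × ((Finset (Fin n) × (Fin (n - j) → Fin n)) × (Fin n → Fin p)) :=
    fun x => (x.1.1, (code (x.1.2 z), d x.1.2))
  have hΦ : Function.Injective Φ := by
    rintro ⟨⟨c, s⟩, h⟩ ⟨⟨c', s'⟩, h'⟩ he
    have e1 : c = c' := congrArg Prod.fst he
    have e2 : code (s z) = code (s' z) := congrArg (fun q => q.2.1) he
    have e3 : d s = d s' := congrArg (fun q => q.2.2) he
    subst e1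
    have e4 := hcode _ _ (hfix c s h) e2
    have e5 := hdet c s s' h h' e4 e3
    subst e5
    rfl
  have hle := Nat.card_le_card_of_injective Φ hΦ
  refine hle.trans (le_of_eq ?_)
  simp [Nat.card_prod, Nat.card_eq_fintype_card]

end Pool.Agent.Helper87.AS
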