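import Pool.Agent.Helper87.AT.FewSent
import Pool.Agent.Helper87.AT.FewComb
import Pool.Agent.Helper87.AT.FewCount
import Pool.Agent.Helper87.AT.FewAsym

/-!
# AT-18: ultimately periodic sets are spectra of sentences with few labelled models

Proof of `exists_few`. `A = N + p`, `L = APLang A p` (finite, see `isSpectrum_AP`),
`F = (Finset.range A).filter (· ∈ T)`, `φ` = the disjunction (`BoundedFormula.iSup` over a finite type, or a
fold) of the sentences `ψ_a` of `exists_sent A p N a`, `a ∈ F`; all `a ∈ F` are positive.
* `Spec L φ = T`: `n ∈ Spec` iff for some `a ∈ F` there is `j` with `n = a + p * j` and (`a < N → j = 0`)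
  (`PM.card`, `exists_PM`; a structure on `M` is given by `c` and `s`, see `apStr`); this is `T`
  (see the proof of `isSpectrum_of_periodic`).
* Count: a structure `S` on `Fin n` is determined by `(vc, vs)`; if it realises `φ` then `PM N a vc vs` for some
  `a ∈ F`, and then `n = a + p * j`, `j ≤ n` (as `p > 0`), `n ≤ A + p * j`. So the number of models is at most the sum over
  `a ∈ F` of the cardinalities in `PM_count` (`0` if `n` is not of the form `a + p * j`), each at most
  `n ^ A * (2 ^ n * n ^ (n - j_a) * p ^ n)`; let `j` be the smallest `j_a` which occurs: the sum is at most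
  `A * (n ^ A * (2 ^ n * n ^ (n - j) * p ^ n))`; `few_asym`.
-/

set_option autoImplicit false

namespace Pool.Agent.Helper87.AS

open FirstOrder FirstOrder.Language Pool.Agent.Helper31.Spectra

/-- The interpretation of the function symbols by `c` and `s`. -/
private def few_fun {A p : ℕ} {M : Type} (c : Fin A → M) (s : Fin p → M → M) :
    {n : ℕ} → APFun A p n → (Fin n → M) → M
  | _, APFun.c i, _ => c i
  | _, APFun.s i, xs => s i (xs 0)

/-- The structure given by `c` and `s`. -/
@[instance_reducible]
private def few_str {A p : ℕ} {M : Type} (c : Fin A → M) (s : Fin p → M → M) :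
    (APLang A p).Structure M where
  funMap := fun f xs => few_fun c s f xs
  RelMap := fun r _ => r.elim

private theorem few_ext {A p : ℕ} {M : Type} (S S' : (APLang A p).Structure M)
    (hc : (@vc A p M S) = @vc A p M S') (hs : (@vs A p M S) = @vs A p M S') : S = S' := by
  refine Structure.ext ?_ ?_
  · funext n f xs
    cases f with
    | c i =>
      have h := congrFun hc i
      have hx : xs = ![] := Subsingleton.elim _ _
      rw [hx]
      exact h
    | s i =>
      have h := congrFun (congrFun hs i) (xs 0)
      have hx : xs = ![xs 0] := by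
        funext k
        rw [Subsingleton.elim k 0]
        rfl
      rw [hx]
      exact h
  · funext n r xs
    exact r.elim

private theorem few_finVoc (A p : ℕ) : FinVoc (APLang A p) := by
  refine ⟨?_, ?_⟩
  · have : Function.Surjective (fun z : Fin A ⊕ Fin p =>
        (match z with
        | Sum.inl i => ⟨0, APFun.c i⟩
        | Sum.inr i => ⟨1, APFun.s i⟩ : Σ n, (APLang A p).Functions n)) := by
      rintro ⟨n, f⟩
      cases f with
      | c i => exact ⟨Sum.inl i, rfl⟩
      | s i => exact ⟨Sum.inr i, rfl⟩
    exact Finite.of_surjective _ this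
  · have : IsEmpty (Σ n, (APLang A p).Relations n) := ⟨fun z => z.2.elim⟩
    infer_instance

theorem exists_few (T : Set ℕ) (h0 : 0 ∉ T) (N p : ℕ) (hp : 0 < p)
    (hT : ∀ n, N ≤ n → (n ∈ T ↔ n + p ∈ T)) :
    ∃ (L : FirstOrder.Language.{0, 0}) (φ : L.Sentence), FinVoc L ∧ Spec L φ = T ∧
      ∀ C : ℕ, ∃ n₀ : ℕ, ∀ n, n₀ ≤ n →
        Nat.card {S : L.Structure (Fin n) // @Sentence.Realize L (Fin n) S φ} * C ^ n ≤
          n.factorial := by
  classical
  set A : ℕ := N + p with hA
  set F : Finset ℕ := (Finset.range A).filter (fun a => a ∈ T) with hF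
  choose ψ hψ using fun a : ℕ => exists_sent A p N a
  set φ : (APLang A p).Sentence := BoundedFormula.iSup (fun a : F => ψ a.1) with hφ
  have hreal : ∀ (M : Type) [(APLang A p).Structure M],
      φ.Realize M ↔ ∃ a ∈ F, PM N a (vc A p : Fin A → M) (vs A p) := by
    intro M _
    have h1 : φ.Realize M ↔ ∃ a : F, (ψ a.1).Realize M := by
      rw [hφ, Sentence.Realize, Formula.Realize, BoundedFormula.realize_iSup]
      rfl
    rw [h1]
    constructor
    · rintro ⟨a, ha⟩
      exact ⟨a.1, a.2, (hψ a.1 M).1 ha⟩
    · rintro ⟨a, ha, h⟩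
      exact ⟨⟨a, ha⟩, (hψ a M).2 h⟩
  have hFA : ∀ a ∈ F, a < A ∧ a ∈ T ∧ 0 < a := by
    intro a ha
    rw [hF, Finset.mem_filter, Finset.mem_range] at ha
    refine ⟨ha.1, ha.2, ?_⟩
    rcases Nat.eq_zero_or_pos a with h | h
    · exact absurd (h ▸ ha.2) h0
    · exact h
  refine ⟨APLang A p, φ, few_finVoc A p, ?_, ?_⟩
  · ext n
    constructor
    · rintro ⟨hn, M, sM, hM, hr⟩
      have hfin : Finite M := by
        apply Nat.finite_of_card_ne_zero
        omega
      obtain ⟨a, haF, hPM⟩ := (hreal M).1 hr
      obtain ⟨haA, haT, _⟩ := hFA a haF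
      obtain ⟨j, hj, hj0⟩ := hPM.card haA.le
      rw [hM] at hj
      rw [hj]
      by_cases haN : a < N
      · rw [hj0 haN]
        simpa using haT
      · clear hj hj0
        induction j with
        | zero => simpa using haT
        | succ j ih =>
          have h1 : a + p * (j + 1) = (a + p * j) + p := by ring
          rw [h1]
          exact (hT (a + p * j) (by omega)).1 ih
    · intro hn
      have key : ∀ n, n ∈ T → ∃ a ∈ F, ∃ j, n = a + p * j ∧ (a < N → j = 0) := by
        intro n
        induction n using Nat.strong_induction_on with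
        | _ n ih =>
          intro hn
          by_cases hnN : n < N + p
          · refine ⟨n, ?_, 0, by simp, fun _ => rfl⟩
            rw [hF, Finset.mem_filter, Finset.mem_range]
            exact ⟨hnN, hn⟩
          · obtain ⟨m, rfl⟩ : ∃ m, n = m + p := ⟨n - p, by omega⟩
            have hm : m ∈ T := (hT m (by omega)).2 hn
            obtain ⟨a, ha1, j, hj, hj0⟩ := ih m (by omega) hm
            by_cases haN : a < N
            · have := hj0 haN
              subst this
              exfalso
              have : m = a := by simpa using hj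
              omega
            · refine ⟨a, ha1, j + 1, ?_, fun h => absurd h haN⟩
              rw [hj]
              ring
      obtain ⟨a, haF, j, hj, hj0⟩ := key n hn
      obtain ⟨haA, haT, ha0⟩ := hFA a haF
      obtain ⟨M, _, c, s, hM, hPM⟩ := exists_PM ha0 haA.le j hj0
      refine ⟨by omega, M, few_str c s, by rw [hM, hj], ?_⟩
      exact (@hreal M (few_str c s)).2 ⟨a, haF, hPM⟩
  · intro C
    obtain ⟨n₀, hn₀⟩ := few_asym A p C hp
    refine ⟨n₀, fun n hn => ?_⟩
    set X := (Fin A → Fin n) × (Fin p → Fin n → Fin n) with hX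
    let B : ℕ → Finset X := fun a => Finset.univ.filter (fun x => PM N a x.1 x.2)
    let F' : Finset ℕ := F.filter (fun a => ∃ j, n = a + p * j)
    let b : ℕ → ℕ := fun a => n ^ A * (2 ^ n * n ^ (n - (n - a) / p) * p ^ n)
    have hj : ∀ a ∈ F', n = a + p * ((n - a) / p) := by
      intro a ha
      obtain ⟨_, j, hj⟩ := Finset.mem_filter.1 ha
      have h1 : (n - a) / p = j := by
        rw [hj, Nat.add_sub_cancel_left, Nat.mul_div_cancel_left _ hp]
      rw [h1]
      exact hj
    have hBcard : ∀ a ∈ F', (B a).card ≤ b a := by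
      intro a ha
      have haA := (hFA a (Finset.mem_filter.1 ha).1).1.le
      have h1 := PM_count (A := A) (p := p) (N := N) (a := a) (n := n) (j := (n - a) / p) hp haA
        (hj a ha)
      rw [Nat.card_eq_fintype_card, Fintype.card_subtype] at h1
      exact h1
    have hinj : Nat.card {S : (APLang A p).Structure (Fin n) //
        @Sentence.Realize (APLang A p) (Fin n) S φ} ≤ (F'.biUnion B).card := by
      have hmem : ∀ S : {S : (APLang A p).Structure (Fin n) //
          @Sentence.Realize (APLang A p) (Fin n) S φ},
          ((@vc A p (Fin n) S.1, @vs A p (Fin n) S.1) : X) ∈ F'.biUnion B := by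
        intro S
        obtain ⟨a, haF, hPM⟩ := (@hreal (Fin n) S.1).1 S.2
        obtain ⟨j, hj, _⟩ := PM.card (hFA a haF).1.le hPM
        rw [Nat.card_eq_fintype_card, Fintype.card_fin] at hj
        refine Finset.mem_biUnion.2 ⟨a, Finset.mem_filter.2 ⟨haF, j, hj⟩, ?_⟩
        exact Finset.mem_filter.2 ⟨Finset.mem_univ _, hPM⟩
      have h2 := Nat.card_le_card_of_injective
        (fun S : {S : (APLang A p).Structure (Fin n) //
          @Sentence.Realize (APLang A p) (Fin n) S φ} =>
          (⟨(@vc A p (Fin n) S.1, @vs A p (Fin n) S.1), hmem S⟩ : {x : X // x ∈ F'.biUnion B}))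
        (by
          intro S S' h
          have h3 := congrArg Subtype.val h
          have h4 : (@vc A p (Fin n) S.1) = @vc A p (Fin n) S'.1 := congrArg Prod.fst h3
          have h5 : (@vs A p (Fin n) S.1) = @vs A p (Fin n) S'.1 := congrArg Prod.snd h3
          exact Subtype.ext (few_ext S.1 S'.1 h4 h5))
      rwa [Nat.card_eq_fintype_card (α := {x : X // x ∈ F'.biUnion B}), Fintype.card_coe] at h2
    rcases F'.eq_empty_or_nonempty with hE | hne
    · rw [hE, Finset.biUnion_empty, Finset.card_empty] at hinj
      rw [Nat.le_zero.1 hinj, zero_mul]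
      exact Nat.zero_le _
    · obtain ⟨a₀, ha₀, hmax⟩ := Finset.exists_max_image F' b hne
      have hsum : (F'.biUnion B).card ≤ A * b a₀ := by
        calc (F'.biUnion B).card ≤ ∑ a ∈ F', (B a).card := Finset.card_biUnion_le
          _ ≤ ∑ _a ∈ F', b a₀ := Finset.sum_le_sum (fun a ha => (hBcard a ha).trans (hmax a ha))
          _ = F'.card * b a₀ := by rw [Finset.sum_const, smul_eq_mul]
          _ ≤ A * b a₀ := by
            refine Nat.mul_le_mul_right _ ?_
            calc F'.card ≤ F.card := Finset.card_filter_le _ _
              _ ≤ (Finset.range A).card := Finset.card_filter_le _ _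
              _ = A := Finset.card_range A
      have hja := hj a₀ ha₀
      have haA := (hFA a₀ (Finset.mem_filter.1 ha₀).1).1.le
      have hjn : (n - a₀) / p ≤ n := (Nat.div_le_self _ _).trans (Nat.sub_le _ _)
      have h3 := hn₀ n hn ((n - a₀) / p) (by omega) hjn
      exact (Nat.mul_le_mul_right _ (hinj.trans hsum)).trans h3

end Pool.Agent.Helper87.AS
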