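import Pool.Agent.Helper31.Spectra

/-!
# Sentences with few labelled models for ultimately periodic sets: definitions
-/

set_option autoImplicit false

namespace Pool.Agent.Helper87.AS

/-- The first `a` of the constants `c` are distinct and the other ones repeat them; all functions
`s i` fix the constants; the points which are not constants (there are none if `a < N`) come in
blocks of `p` points `s 0 x, s 1 x, ...`. -/
structure PM {A p : ℕ} (N a : ℕ) {M : Type} (c : Fin A → M) (s : Fin p → M → M) : Prop where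
  cinj : ∀ i j : Fin A, i.1 < a → j.1 < a → i ≠ j → c i ≠ c j
  ctriv : ∀ i : Fin A, a ≤ i.1 → ∃ j : Fin A, j.1 < a ∧ c i = c j
  sc : ∀ i j, s i (c j) = c j
  ax : ∀ x, (∃ i, x = c i) ∨ (N ≤ a ∧ (∀ i j, s i x ≠ c j) ∧ (∀ i j, i ≠ j → s i x ≠ s j x) ∧
    (∀ i j, s j (s i x) = s j x) ∧ ∃ i, x = s i x)

end Pool.Agent.Helper87.AS
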