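import Pool.Agent.Helper87.AT.FewDefs

/-!
# AT-14: the sentence

Proof of `exists_sent`: same technique as `ax1`, `ax2`, `realize_ax1`, `realize_ax2` in
`Helper31/Spectra.lean`. The conjunction of four sentences: `cinj` as `ax1` with the condition
`i = j ∨ a ≤ i ∨ a ≤ j` instead of `i = j`; `ctriv` as
`iInf i, if a ≤ i then iSup j, (if j < a then tc i = tc j else ⊥) else ⊤`; `sc` as
`iInf i, iInf j, ts i (tc j) = tc j`; `ax` as `ax2` with a conjunct `if N ≤ a then ⊤ else ⊥`.
-/

set_option autoImplicit false

namespace Pool.Agent.Helper87.AS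

open FirstOrder FirstOrder.Language Pool.Agent.Helper31.Spectra

/-- The sentence for `cinj`. -/
private noncomputable def snt1 (A p a : ℕ) : (APLang A p).Sentence :=
  BoundedFormula.iInf (fun i : Fin A => BoundedFormula.iInf (fun j : Fin A =>
    if i = j ∨ a ≤ i.1 ∨ a ≤ j.1 then ⊤ else (Term.bdEqual (tc i) (tc j)).not))

private lemma realize_snt1 {A p : ℕ} (a : ℕ) {M : Type} [(APLang A p).Structure M] :
    (snt1 A p a).Realize M ↔
      ∀ i j : Fin A, i.1 < a → j.1 < a → i ≠ j → (vc A p i : M) ≠ vc A p j := by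
  rw [snt1, Sentence.Realize, Formula.Realize]
  simp only [BoundedFormula.realize_iInf]
  refine forall_congr' (fun i => forall_congr' (fun j => ?_))
  by_cases hij : i = j ∨ a ≤ i.1 ∨ a ≤ j.1
  · simp only [hij, if_true, BoundedFormula.realize_top, true_iff]
    intro h1 h2 h3
    rcases hij with h | h | h
    · exact absurd h h3
    · omega
    · omega
  · simp only [hij, if_false, BoundedFormula.realize_not, BoundedFormula.realize_bdEqual,
      realize_tc]
    push Not at hij
    exact ⟨fun h _ _ _ => h, fun h => h hij.2.1 hij.2.2 hij.1⟩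

/-- The sentence for `ctriv`. -/
private noncomputable def snt2 (A p a : ℕ) : (APLang A p).Sentence :=
  BoundedFormula.iInf (fun i : Fin A =>
    if a ≤ i.1 then BoundedFormula.iSup (fun j : Fin A =>
      if j.1 < a then Term.bdEqual (tc i) (tc j) else ⊥) else ⊤)

private lemma realize_snt2 {A p : ℕ} (a : ℕ) {M : Type} [(APLang A p).Structure M] :
    (snt2 A p a).Realize M ↔
      ∀ i : Fin A, a ≤ i.1 → ∃ j : Fin A, j.1 < a ∧ (vc A p i : M) = vc A p j := by
  rw [snt2, Sentence.Realize, Formula.Realize]
  simp only [BoundedFormula.realize_iInf]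
  refine forall_congr' (fun i => ?_)
  by_cases hi : a ≤ i.1
  · simp only [hi, if_true, BoundedFormula.realize_iSup, forall_const]
    refine exists_congr (fun j => ?_)
    by_cases hj : j.1 < a
    · simp only [hj, if_true, BoundedFormula.realize_bdEqual, realize_tc, true_and]
    · simp only [hj, if_false, BoundedFormula.realize_bot, false_and]
  · simp only [hi, if_false, BoundedFormula.realize_top, IsEmpty.forall_iff]

/-- The sentence for `sc`. -/
private noncomputable def snt3 (A p : ℕ) : (APLang A p).Sentence :=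
  BoundedFormula.iInf (fun i : Fin p => BoundedFormula.iInf (fun j : Fin A =>
    Term.bdEqual (ts i (tc j)) (tc j)))

private lemma realize_snt3 {A p : ℕ} {M : Type} [(APLang A p).Structure M] :
    (snt3 A p).Realize M ↔
      ∀ (i : Fin p) (j : Fin A), vs A p i (vc A p j : M) = vc A p j := by
  rw [snt3, Sentence.Realize, Formula.Realize]
  simp only [BoundedFormula.realize_iInf, BoundedFormula.realize_bdEqual, realize_tc,
    realize_ts]

/-- The sentence for `ax`. -/
private noncomputable def snt4 (A p N a : ℕ) : (APLang A p).Sentence :=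
  BoundedFormula.all ((BoundedFormula.iSup (fun i : Fin A => Term.bdEqual tx (tc i))) ⊔
    ((if N ≤ a then ⊤ else ⊥) ⊓
    ((BoundedFormula.iInf (fun i : Fin p => BoundedFormula.iInf (fun j : Fin A =>
      (Term.bdEqual (ts i tx) (tc j)).not))) ⊓
    ((BoundedFormula.iInf (fun i : Fin p => BoundedFormula.iInf (fun j : Fin p =>
      if i = j then ⊤ else (Term.bdEqual (ts i tx) (ts j tx)).not))) ⊓
    ((BoundedFormula.iInf (fun i : Fin p => BoundedFormula.iInf (fun j : Fin p =>
      (Term.bdEqual (ts j (ts i tx)) (ts j tx))))) ⊓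
    (BoundedFormula.iSup (fun i : Fin p => Term.bdEqual tx (ts i tx))))))))

private lemma realize_snt4 {A p : ℕ} (N a : ℕ) {M : Type} [(APLang A p).Structure M] :
    (snt4 A p N a).Realize M ↔ ∀ x : M,
      (∃ i : Fin A, x = vc A p i) ∨
      (N ≤ a ∧ (∀ (i : Fin p) (j : Fin A), vs A p i x ≠ vc A p j) ∧
      (∀ i j : Fin p, i ≠ j → vs A p i x ≠ vs A p j x) ∧
      (∀ i j : Fin p, vs A p j (vs A p i x) = vs A p j x) ∧
      ∃ i : Fin p, x = vs A p i x) := by
  rw [snt4, Sentence.Realize, Formula.Realize, BoundedFormula.realize_all]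
  refine forall_congr' (fun x => ?_)
  rw [BoundedFormula.realize_sup, BoundedFormula.realize_inf, BoundedFormula.realize_inf,
    BoundedFormula.realize_inf, BoundedFormula.realize_inf]
  simp only [BoundedFormula.realize_iInf, BoundedFormula.realize_iSup,
    BoundedFormula.realize_bdEqual, BoundedFormula.realize_not, realize_tc, realize_ts,
    realize_tx]
  refine or_congr Iff.rfl (and_congr ?_ (and_congr Iff.rfl (and_congr ?_ Iff.rfl)))
  · by_cases hN : N ≤ a
    · simp only [hN, if_true, BoundedFormula.realize_top]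
    · simp only [hN, if_false, BoundedFormula.realize_bot]
  · refine forall_congr' (fun i => forall_congr' (fun j => ?_))
    by_cases hij : i = j
    · simp [hij]
    · simp only [hij, if_false, BoundedFormula.realize_not, BoundedFormula.realize_bdEqual,
        realize_ts, realize_tx]
      exact ⟨fun h _ => h, fun h => h hij⟩

theorem exists_sent (A p N a : ℕ) : ∃ ψ : (APLang A p).Sentence,
    ∀ (M : Type) [(APLang A p).Structure M],
      ψ.Realize M ↔ PM N a (vc A p : Fin A → M) (vs A p) := by
  refine ⟨(snt1 A p a ⊓ snt2 A p a) ⊓ (snt3 A p ⊓ snt4 A p N a), fun M _ => ?_⟩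
  have h3 : ((snt1 A p a ⊓ snt2 A p a) ⊓ (snt3 A p ⊓ snt4 A p N a) :
      (APLang A p).Sentence).Realize M ↔
      ((snt1 A p a).Realize M ∧ (snt2 A p a).Realize M) ∧
        ((snt3 A p).Realize M ∧ (snt4 A p N a).Realize M) :=
    Formula.realize_inf.trans (and_congr Formula.realize_inf Formula.realize_inf)
  rw [h3, realize_snt1, realize_snt2, realize_snt3, realize_snt4]
  exact ⟨fun h => ⟨h.1.1, h.1.2, h.2.1, h.2.2⟩,
    fun h => ⟨⟨h.cinj, h.ctriv⟩, ⟨h.sc, h.ax⟩⟩⟩

end Pool.Agent.Helper87.AS
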