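import Pool.Agent.Helper87.AT.PDefs

/-!
# AT-1: from local groups to the whole group

Proof of `pum_of_local`. Let `E i` enumerate the `i`-th block (the blocks are disjoint).
* `pos`: `hP.pos`.
* `sys` (block `0`, `e := E ⟨0, _⟩`): let `p` be the system for `A` (points of `Fin k`); take
  `p' i c = e (p i c)`. For `τ`, `Z` let `Z₁ = univ.filter (fun c => e c ∈ Z)` (at most `|Z| ≤ R` points,
  as `e` is injective) and `Z₂ = Z.filter (fun z => ∀ c, e c ≠ z)`. The system gives `a ∈ A` fixing `Z₁` with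
  `a (p i c) = p (τ i) c`; `Locl` gives `g ∈ G` fixing `Z₂` with `g (e c) = e (a c)`. `g` fixes all of `Z`.
* `rem`: let `j ≤ N * J'`. There is `f : Fin N → ℕ` with `f i ≤ J'` and `∑ i, f i = j` (induction on `N`, or
  `f i = min J' (j - J' * i)`). Take `X i : Finset (Fin k)` with `|X i| = k' * f i` removable for `A` and
  `X = ⋃ i, image (E i) (X i)`; `|X| = k' * j` (disjoint images). `k' * j + k' ≤ |Ω|`: `N * k ≤ |Ω|`
  (injectivity of `(i, c) ↦ E i c`) and `k' * J' + k' ≤ k` (`hP.rem J'`), so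
  `k' * j + k' ≤ N * (k' * J') + N * k' ≤ N * k`. `Rem`: for `Z` disjoint from `X` and `x = E i c`, `c ∈ X i`:
  `Z₁ = univ.filter (fun c' => E i c' ∈ Z)` is disjoint from `X i`, so there is `a ∈ A` fixing `Z₁` with
  `a c ∉ X i`; `Locl` (with `Z₂` as above) gives `g ∈ G` fixing `Z` with `g (E i c') = E i (a c')`, and
  `g x = E i (a c) ∉ X` because the blocks are disjoint.
-/

set_option autoImplicit false

namespace Pool.Agent.Helper87.AS

open Finset

/-- A local permutation can be realised fixing a small set on whose points in the block it is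
trivial. -/
private theorem locl_lift {Ω : Type} [Fintype Ω] [DecidableEq Ω] {G : Subgroup (Equiv.Perm Ω)}
    {R k : ℕ} {e : Fin k → Ω} {A : Subgroup (Equiv.Perm (Fin k))} (h : Locl G R e A)
    {a : Equiv.Perm (Fin k)} (ha : a ∈ A) {Z : Finset Ω} (hZ : Z.card ≤ R)
    (hfix : ∀ c, e c ∈ Z → a c = c) :
    ∃ g ∈ G, (∀ z ∈ Z, g z = z) ∧ ∀ c, g (e c) = e (a c) := by
  classical
  obtain ⟨g, hg, h1, h2⟩ := h a ha (Z.filter (fun z => ∀ c, e c ≠ z))
    ((card_filter_le _ _).trans hZ) (fun c hc => (mem_filter.1 hc).2 c rfl)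
  refine ⟨g, hg, fun z hz => ?_, h2⟩
  by_cases hz' : ∀ c, e c ≠ z
  · exact h1 z (mem_filter.2 ⟨hz, hz'⟩)
  · push Not at hz'
    obtain ⟨c, rfl⟩ := hz'
    rw [h2, hfix c hz]

private theorem card_pre {Ω : Type} [Fintype Ω] [DecidableEq Ω] {k : ℕ} {e : Fin k → Ω}
    (he : Function.Injective e) (Z : Finset Ω) :
    (univ.filter (fun c => e c ∈ Z)).card ≤ Z.card :=
  card_le_card_of_injOn e (fun c hc => (mem_filter.1 hc).2) (fun _ _ _ _ hab => he hab)

private theorem sum_min (J' j : ℕ) : ∀ N : ℕ,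
    ∑ i ∈ range N, min J' (j - J' * i) = min j (J' * N) := by
  intro N
  induction N with
  | zero => simp
  | succ N ih =>
    rw [sum_range_succ, ih, Nat.mul_succ]
    generalize J' * N = t
    omega

theorem pum_of_local {Ω : Type} [Fintype Ω] [DecidableEq Ω] {G : Subgroup (Equiv.Perm Ω)}
    {M R k N k' J' : ℕ} (hN : 1 ≤ N) (E : Fin N → Fin k → Ω)
    (hE : ∀ i c j d, E i c = E j d → i = j ∧ c = d) (A : Subgroup (Equiv.Perm (Fin k)))
    (hloc : ∀ i, Locl G R (E i) A) (hP : Pum A M R k' J') : Pum G M R k' (N * J') := by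
  have hEi : ∀ i, Function.Injective (E i) := fun i c d hcd => (hE i c i d hcd).2
  refine ⟨hP.pos, ?_, fun j hj => ?_⟩
  · obtain ⟨p, hp, hsym⟩ := hP.sys
    refine ⟨fun i c => E ⟨0, hN⟩ (p i c), fun i c j d hcd => hp i c j d (hEi _ hcd), ?_⟩
    intro τ Z hZ hpZ
    obtain ⟨a, ha, h1, h2⟩ := hsym τ (univ.filter (fun c => E ⟨0, hN⟩ c ∈ Z))
      ((card_pre (hEi _) Z).trans hZ) (fun i c hc => hpZ i c (mem_filter.1 hc).2)
    obtain ⟨g, hg, h3, h4⟩ := locl_lift (hloc ⟨0, hN⟩) ha hZ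
      (fun c hc => h1 c (mem_filter.2 ⟨mem_univ _, hc⟩))
    exact ⟨g, hg, h3, fun i c => by rw [h4, h2]⟩
  · have hf : ∀ i : Fin N, min J' (j - J' * (i : ℕ)) ≤ J' := fun i => min_le_left _ _
    choose hcX X hXc hXr using fun i : Fin N => hP.rem _ (hf i)
    have hsum : ∑ i : Fin N, min J' (j - J' * (i : ℕ)) = j := by
      rw [Fin.sum_univ_eq_sum_range (fun i => min J' (j - J' * i)) N, sum_min]
      rw [Nat.mul_comm] at hj
      exact min_eq_left hj
    refine ⟨?_, univ.biUnion (fun i => (X i).image (E i)), ?_, ?_⟩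
    · have h1 : N * k ≤ Fintype.card Ω := by
        have h2 := Fintype.card_le_of_injective (fun q : Fin N × Fin k => E q.1 q.2)
          (fun q r hqr => Prod.ext (hE _ _ _ _ hqr).1 (hE _ _ _ _ hqr).2)
        rwa [Fintype.card_prod, Fintype.card_fin, Fintype.card_fin] at h2
      have h3 := (hP.rem J' le_rfl).1
      rw [Fintype.card_fin] at h3
      calc k' * j + k' ≤ k' * (N * J') + N * k' :=
            Nat.add_le_add (Nat.mul_le_mul_left _ hj) (Nat.le_mul_of_pos_left _ hN)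
        _ = N * (k' * J' + k') := by ring
        _ ≤ N * k := Nat.mul_le_mul_left _ h3
        _ ≤ Fintype.card Ω := h1
    · rw [card_biUnion]
      · calc ∑ i : Fin N, ((X i).image (E i)).card
            = ∑ i : Fin N, k' * min J' (j - J' * (i : ℕ)) :=
              sum_congr rfl (fun i _ => by
                rw [card_image_of_injective _ (hEi i), hXc i])
          _ = k' * j := by rw [← mul_sum, hsum]
      · intro i _ i' _ hii'
        refine Finset.disjoint_left.2 fun x hx hx' => ?_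
        obtain ⟨c, _, rfl⟩ := mem_image.1 hx
        obtain ⟨d, _, hd⟩ := mem_image.1 hx'
        exact hii' (hE _ _ _ _ hd).1.symm
    · intro Z hZ hZX x hx
      obtain ⟨i, _, hxi⟩ := mem_biUnion.1 hx
      obtain ⟨c, hc, rfl⟩ := mem_image.1 hxi
      obtain ⟨a, ha, h1, h2⟩ := hXr i (univ.filter (fun c' => E i c' ∈ Z))
        ((card_pre (hEi i) Z).trans hZ) (fun c' hc' hcon => hZX _ (mem_filter.1 hc').2
          (mem_biUnion.2 ⟨i, mem_univ _, mem_image_of_mem _ hcon⟩)) c hc
      obtain ⟨g, hg, h3, h4⟩ := locl_lift (hloc i) ha hZ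
        (fun c' hc' => h1 c' (mem_filter.2 ⟨mem_univ _, hc'⟩))
      refine ⟨g, hg, h3, fun hcon => ?_⟩
      rw [h4] at hcon
      obtain ⟨i', _, hi'⟩ := mem_biUnion.1 hcon
      obtain ⟨d, hd, hde⟩ := mem_image.1 hi'
      obtain ⟨h5, h6⟩ := hE _ _ _ _ hde
      subst h5
      rw [h6] at hd
      exact h2 hd

end Pool.Agent.Helper87.AS
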