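import Mathlib

/-!
# AT-7: choice of the parameters

Proof of `exists_param`. Let `t` be the natural number with `t ^ 64 ≤ D < (t + 1) ^ 64` (`t → ∞` with `D`).
Take `T = t ^ 16`, `s = t`, `K = ⌈10 * (log D) ^ 2⌉₊`. As `log D ≤ 64 * log (t + 1)`, `K ≤ 10 * (64 * log (t + 1)) ^ 2 + 1`
is smaller than any power of `t`: for `t` large `c₀ * (K + 1) ^ 3 ≤ t = s`, in particular `K + 1 ≤ t`.
* `4 * (K + 1) ^ 2 * (s + 1) ^ 2 ≤ 4 * t ^ 2 * (t + 1) ^ 2 ≤ t ^ 16`.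
* `(4 * K * (s + 1) + 1) * T ≤ (4 * t * (t + 1) + 1) * t ^ 16 ≤ t ^ 32 ≤ Nat.sqrt D`.
* `log D ≤ 64 * log (t + 1) ≤ 80 * log t = 5 * log T`.
* `(log D) ^ 2 ≤ K ≤ T`.
* `log (2 * (log D) ^ 3 * t) ≤ log (t ^ 6) = 6 * log t ≤ (1 / 10) * 64 * log t ≤ (1 / 5) * log D / 2`.
* `2 * (log D) ^ 2 / (1 / 5) = 10 * (log D) ^ 2 ≤ K`.
All `for t large` by `isLittleO_log_id_atTop`-type arguments; choose `D₁ = (t₁ + 1) ^ 64`.
-/

set_option autoImplicit false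

namespace Pool.Agent.Helper87.AS

private theorem ev_log (C : ℝ) (hC : 0 < C) :
    ∃ t₁ : ℕ, 16 ≤ t₁ ∧ ∀ t : ℕ, t₁ ≤ t → C * (Real.log t) ^ 6 ≤ t := by
  have h := (Real.isLittleO_pow_log_id_atTop (n := 6)).bound (show (0 : ℝ) < 1 / C by positivity)
  have h2 := tendsto_natCast_atTop_atTop.eventually h
  obtain ⟨a, ha⟩ := Filter.eventually_atTop.1 h2
  refine ⟨max a 16, le_max_right _ _, fun t ht => ?_⟩
  have h3 := ha t ((le_max_left _ _).trans ht)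
  simp only [id, Real.norm_eq_abs] at h3
  have h4 : |(t : ℝ)| = t := abs_of_nonneg (Nat.cast_nonneg t)
  rw [h4] at h3
  have h5 : (Real.log t) ^ 6 ≤ 1 / C * t := (le_abs_self _).trans h3
  calc C * (Real.log t) ^ 6 ≤ C * (1 / C * t) := mul_le_mul_of_nonneg_left h5 hC.le
    _ = t := by field_simp

private theorem exists_root (t₁ D : ℕ) (hD : t₁ ^ 64 ≤ D) :
    ∃ t : ℕ, t₁ ≤ t ∧ t ^ 64 ≤ D ∧ (0 < t → 64 * Real.log (t : ℝ) ≤ Real.log D) ∧
      (1 ≤ D → Real.log D ≤ 64 * Real.log ((t : ℝ) + 1)) := by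
  classical
  have hex : ∃ t : ℕ, D < (t + 1) ^ 64 :=
    ⟨D, (Nat.lt_succ_self D).trans_le (Nat.le_self_pow (by norm_num) _)⟩
  have h2 := Nat.find_spec hex
  have h1 : (Nat.find hex) ^ 64 ≤ D := by
    rcases Nat.eq_zero_or_pos (Nat.find hex) with h | h
    · rw [h]; exact (Nat.zero_pow (by norm_num)).le.trans (Nat.zero_le _)
    · have h3 := Nat.find_min hex (Nat.sub_lt h one_pos)
      have h4 : Nat.find hex - 1 + 1 = Nat.find hex := Nat.sub_add_cancel h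
      have h5 := not_lt.1 h3
      have h6 : (Nat.find hex - 1 + 1) ^ 64 = (Nat.find hex) ^ 64 := congrArg (fun n => n ^ 64) h4
      exact h6.symm.le.trans h5
  generalize Nat.find hex = t at h1 h2
  refine ⟨t, ?_, h1, ?_, ?_⟩
  · have h3 := lt_of_le_of_lt hD h2
    exact Nat.lt_succ_iff.1 (lt_of_pow_lt_pow_left₀ 64 (Nat.zero_le _) h3)
  · intro ht
    have h3 : ((t ^ 64 : ℕ) : ℝ) ≤ (D : ℝ) := Nat.cast_le.2 h1
    rw [Nat.cast_pow] at h3
    have h4 := Real.log_le_log (pow_pos (Nat.cast_pos.2 ht) 64) h3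
    rw [Real.log_pow] at h4
    exact h4
  · intro hD1
    have h3 : (D : ℝ) ≤ (((t + 1) ^ 64 : ℕ) : ℝ) := Nat.cast_le.2 h2.le
    rw [Nat.cast_pow, Nat.cast_add, Nat.cast_one] at h3
    have h4 := Real.log_le_log (Nat.cast_pos.2 hD1) h3
    rw [Real.log_pow] at h4
    exact h4

theorem exists_param (c₀ : ℕ) :
    ∃ D₁ : ℕ, 16 ≤ D₁ ∧ ∀ D : ℕ, D₁ ≤ D → ∃ T K s : ℕ, 2 ≤ T ∧
      4 * (K + 1) ^ 2 * (s + 1) ^ 2 ≤ T ∧ c₀ * (K + 1) ^ 3 ≤ s ∧
      (4 * K * (s + 1) + 1) * T ≤ Nat.sqrt D ∧ Real.log D ≤ 5 * Real.log T ∧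
      (Real.log D) ^ 2 ≤ T ∧
      Real.log (2 * (Real.log D) ^ 2 * Real.log D * s) ≤ (1 / 5) * Real.log D / 2 ∧
      2 * (Real.log D) ^ 2 / (1 / 5) ≤ K := by
  obtain ⟨t₁, h16, ht₁⟩ := ev_log (((c₀ : ℝ) + 1) * 64002 ^ 3) (by positivity)
  refine ⟨t₁ ^ 64, h16.trans (Nat.le_self_pow (by norm_num) t₁), fun D hD => ?_⟩
  obtain ⟨t, htt, h1, hlog1, hlog2⟩ := exists_root t₁ D hD
  clear hD
  have ht16 : 16 ≤ t := h16.trans htt
  have hE := ht₁ t htt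
  have htR : (16 : ℝ) ≤ t := by exact_mod_cast ht16
  have htpos : (0 : ℝ) < t := by linarith
  obtain ⟨L, hL⟩ : ∃ L : ℝ, L = Real.log (t : ℝ) := ⟨_, rfl⟩
  rw [← hL] at hE
  have hL1 : 1 ≤ L := by
    rw [hL, Real.le_log_iff_exp_le htpos]
    have := Real.exp_one_lt_d9
    linarith
  have hD1 : 1 ≤ D := (Nat.one_le_pow 64 t (by omega)).trans h1
  have hDle : Real.log D ≤ 80 * L := by
    have h3 := hlog2 hD1
    have h4 : Real.log ((t : ℝ) + 1) ≤ 5 / 4 * L := by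
      have h5 : ((t : ℝ) + 1) ^ 4 ≤ (t : ℝ) ^ 5 := by
        calc ((t : ℝ) + 1) ^ 4 ≤ (2 * t) ^ 4 := by gcongr; linarith
          _ = 16 * (t : ℝ) ^ 4 := by ring
          _ ≤ t * (t : ℝ) ^ 4 := by gcongr
          _ = (t : ℝ) ^ 5 := by ring
      have h6 := Real.log_le_log (by positivity) h5
      rw [Real.log_pow, Real.log_pow, ← hL] at h6
      push_cast at h6
      linarith
    linarith
  have hDge : 64 * L ≤ Real.log D := by
    have h3 := hlog1 (by omega)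
    rw [← hL] at h3
    exact h3
  clear hlog1 hlog2
  have hlogD : 0 ≤ Real.log D := by linarith
  -- the number K
  obtain ⟨K, hK⟩ : ∃ K : ℕ, K = ⌈10 * (Real.log D) ^ 2⌉₊ := ⟨_, rfl⟩
  have hKle : 10 * (Real.log D) ^ 2 ≤ K := by
    rw [hK]; exact Nat.le_ceil _
  have hKlt : (K : ℝ) < 10 * (Real.log D) ^ 2 + 1 := by
    rw [hK]; exact Nat.ceil_lt_add_one (by positivity)
  have hsq : (Real.log D) ^ 2 ≤ 6400 * L ^ 2 := by
    calc (Real.log D) ^ 2 ≤ (80 * L) ^ 2 := by gcongr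
      _ = 6400 * L ^ 2 := by ring
  have hL2 : 1 ≤ L ^ 2 := one_le_pow₀ hL1
  have hK1 : (K : ℝ) + 1 ≤ 64002 * L ^ 2 := by nlinarith
  have hK3 : ((K : ℝ) + 1) ^ 3 ≤ 64002 ^ 3 * L ^ 6 := by
    calc ((K : ℝ) + 1) ^ 3 ≤ (64002 * L ^ 2) ^ 3 := by gcongr
      _ = 64002 ^ 3 * L ^ 6 := by ring
  have hL6 : 0 ≤ L ^ 6 := by positivity
  have hcK : c₀ * (K + 1) ^ 3 ≤ t := by
    have h3 : (c₀ : ℝ) * ((K : ℝ) + 1) ^ 3 ≤ t := by
      calc (c₀ : ℝ) * ((K : ℝ) + 1) ^ 3 ≤ (c₀ : ℝ) * (64002 ^ 3 * L ^ 6) := by gcongr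
        _ ≤ ((c₀ : ℝ) + 1) * 64002 ^ 3 * L ^ 6 := by nlinarith
        _ ≤ t := hE
    exact_mod_cast h3
  have hKt' : (K : ℝ) + 1 ≤ t := by
    have h3 : 64002 * L ^ 2 ≤ 64002 ^ 3 * L ^ 6 := by
      have h4 : L ^ 2 ≤ L ^ 6 := pow_le_pow_right₀ hL1 (by norm_num)
      nlinarith
    have h5 : (0 : ℝ) ≤ c₀ := Nat.cast_nonneg _
    nlinarith [mul_nonneg h5 hL6]
  have hKt : K + 1 ≤ t := by exact_mod_cast hKt'
  have ht1 : t + 1 ≤ 2 * t := by omega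
  have htp : 1 ≤ t := by omega
  refine ⟨t ^ 16, K, t, ?_, ?_, hcK, ?_, ?_, ?_, ?_, ?_⟩
  · calc 2 ≤ t := by omega
      _ ≤ t ^ 16 := Nat.le_self_pow (by norm_num) t
  · calc 4 * (K + 1) ^ 2 * (t + 1) ^ 2 ≤ 4 * t ^ 2 * (2 * t) ^ 2 := by gcongr
      _ = 16 * t ^ 4 := by ring
      _ ≤ t * t ^ 4 := by gcongr
      _ = t ^ 5 := by ring
      _ ≤ t ^ 16 := Nat.pow_le_pow_right htp (by norm_num)
  · rw [Nat.le_sqrt']
    have h3 : 4 * K * (t + 1) + 1 ≤ t ^ 16 := by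
      calc 4 * K * (t + 1) + 1 ≤ 4 * t * (2 * t) + t * t := by
            have : 1 ≤ t * t := Nat.one_le_iff_ne_zero.2 (by positivity)
            have h4 : 4 * K * (t + 1) ≤ 4 * t * (2 * t) := by
              apply Nat.mul_le_mul
              · omega
              · exact ht1
            omega
        _ = 9 * t ^ 2 := by ring
        _ ≤ t * t ^ 2 := by
            apply Nat.mul_le_mul_right
            omega
        _ = t ^ 3 := by ring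
        _ ≤ t ^ 16 := Nat.pow_le_pow_right htp (by norm_num)
    calc ((4 * K * (t + 1) + 1) * t ^ 16) ^ 2 ≤ (t ^ 16 * t ^ 16) ^ 2 := by gcongr
      _ = t ^ 64 := by ring
      _ ≤ D := h1
  · push_cast
    rw [Real.log_pow, ← hL]
    push_cast
    linarith
  · push_cast
    have h3 : (t : ℝ) ≤ (t : ℝ) ^ 16 := le_self_pow₀ (by linarith) (by norm_num)
    nlinarith
  · have hpos : 0 < Real.log D := by linarith
    have h3 : 2 * (Real.log D) ^ 2 * Real.log D * t ≤ (t : ℝ) ^ 6 := by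
      have h4 : Real.log D ≤ t := by
        have : Real.log D ≤ (Real.log D) ^ 2 := by
          have : 1 ≤ Real.log D := by linarith
          nlinarith
        nlinarith
      have h5 : 2 * (Real.log D) ^ 2 ≤ t := by nlinarith
      calc 2 * (Real.log D) ^ 2 * Real.log D * t ≤ t * t * t := by gcongr
        _ = (t : ℝ) ^ 3 := by ring
        _ ≤ (t : ℝ) ^ 6 := pow_le_pow_right₀ (by linarith) (by norm_num)
    have h6 := Real.log_le_log (by positivity) h3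
    rw [Real.log_pow, ← hL] at h6
    push_cast at h6
    linarith
  · linarith

end Pool.Agent.Helper87.AS
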