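import Pool.Agent.Helper87.AT.MinD
import Pool.Agent.Helper87.AT.ParamD
import Pool.Agent.Helper87.AS.ClBound

/-!
# AT-8: tame subgroups, version with a bound for the orbits

Proof of `exists_tameD`: `D₁`, `T`, `K`, `s` from `exists_param`. Let `L = log D > 0`. `exists_WD` with
`c = L ^ 2 * L` gives `W`; `cl_bound` with `C = L ^ 2`, `δ = 1 / 5` gives `Tame (fixSub G W) T K s`
(`log T ≥ L / 5`). From `L ^ 3 * |W| ≤ |Y| * L`: `|W| * L ≤ |Y| / L`.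
-/

set_option autoImplicit false

namespace Pool.Agent.Helper87.AS

open Finset

theorem exists_tameD (c₀ : ℕ) :
    ∃ D₁ : ℕ, 16 ≤ D₁ ∧ ∀ D : ℕ, D₁ ≤ D → ∀ (Ω : Type) [Fintype Ω] [DecidableEq Ω]
      (G : Subgroup (Equiv.Perm Ω)) (Y : Finset Ω), (∀ x, (orb G ∅ x).card ≤ D) →
      (∀ g ∈ G, ∀ x, x ∉ Y → g x = x) →
      ∃ (W : Finset Ω) (T K s : ℕ), Tame (fixSub G W) T K s ∧ c₀ * (K + 1) ^ 3 ≤ s ∧
        (4 * K * (s + 1) + 1) * T ≤ Nat.sqrt D ∧ Real.log D ≤ 5 * Real.log T ∧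
        (Real.log D) ^ 2 ≤ T ∧
        Real.log (Nat.card G) ≤ Y.card / Real.log D + Real.log (Nat.card (fixSub G W)) := by
  obtain ⟨D₁, hD₁, hp⟩ := exists_param c₀
  refine ⟨D₁, hD₁, fun D hD Ω _ _ G Y hG hY => ?_⟩
  obtain ⟨T, K, s, hT2, hbig, hc, hsq, hlog, hlog2, h5, h6⟩ := hp D hD
  have hD16 : 16 ≤ D := hD₁.trans hD
  have hL : 0 < Real.log (D : ℝ) := by
    apply Real.log_pos
    exact_mod_cast (by omega : 1 < D)
  obtain ⟨W, hW1, hW2, hW3⟩ := exists_WD G Y (by omega : 2 ≤ D) hG hY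
    (c := (Real.log (D : ℝ)) ^ 2 * Real.log (D : ℝ)) (by positivity)
  refine ⟨W, T, K, s, ⟨fun Z hZ => ?_, hbig⟩, hc, hsq, hlog, hlog2, ?_⟩
  · exact cl_bound (C := (Real.log (D : ℝ)) ^ 2) (δ := 1 / 5) (L := Real.log (D : ℝ))
      (by positivity) (by norm_num) hL (by omega) (by linarith) h5 h6 hW2 Z hZ
  · have h7 : (W.card : ℝ) * Real.log (D : ℝ) ≤ (Y.card : ℝ) / Real.log (D : ℝ) := by
      rw [le_div_iff₀ hL]
      have h8 : Real.log (D : ℝ) * ((W.card : ℝ) * Real.log (D : ℝ) * Real.log (D : ℝ)) ≤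
          Real.log (D : ℝ) * (Y.card : ℝ) := by
        nlinarith
      exact le_of_mul_le_mul_left h8 hL
    linarith

end Pool.Agent.Helper87.AS
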