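import Pool.Agent.Helper87.AT.ClassB
import Pool.Agent.Helper87.AT.TameD

/-!
# AT-11: the induction

* `zones`: consider the finsets `V` of the form `S.biUnion (zone H T)`, `S` a finset of very large points
  (`(4 * K * (s + 1) + 1) * T ≤ |orb H ∅ x|`), with `log |H| ≤ c * |V| + log |fixSub H V|`. `S = ∅` works
  (`fixSub H ∅` and `H` have the same elements). Take one with `V` of maximal cardinality. `V ⊆ Y`, because
  points of zones are large (`zone_large`, `2 ≤ T`), hence moved by `H`. If some very large `x₀` is not in `V`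
  then `zone H T x₀` is disjoint from `V` (`Tame.zone_meet`: a common point with `zone H T x`, `x ∈ S`, would
  give `x₀ ∈ zone H T x ⊆ V`), and by `hcl x₀ _ V` the set `V ∪ zone H T x₀` (of `insert x₀ S`) satisfies the
  inequality and is larger (`x₀ ∈ zone H T x₀`): contradiction. So all very large points are in `V`.
* `step`: let `c₀ = 6 * R + 6 * M + 20` and `D₁` from `exists_tameD c₀` (independent of `A₀`). For `D ≥ D₁` and `Bd .. (Nat.sqrt D)`:
  given `G`, `Y`, `μ`. `W`, `T`, `K`, `s` from `exists_tameD`, `H = fixSub G W`. `Bad H` (`Bad.mono`).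
  `c := A₀ - 4 / x' + 20 * lam * ψ + 1 / x`, `x = log D`, `x' = log (Nat.sqrt D) ≤ x / 2`, `x' > 0`,
  `ψ = x / (x + y)`, `y = log μ ≥ 0`. `class_bound` gives `hcl`; `zones` gives `V ⊆ Y`. The group
  `fixSub H V` fixes all points outside `Y \ V`, its orbits have at most `Nat.sqrt D` points, it is bad, so by the
  induction hypothesis `log |fixSub H V| ≤ (A₀ - 4 / x' + 20 * lam * (x' / (x' + y))) * (|Y| - |V|)`, and
  `x' / (x' + y) ≤ ψ`. Altogether (the coefficient of `|Y| - |V|` may be replaced by `c`; note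
  `1 / x ≥ 0`): `log |G| ≤ |Y| / x + c * |Y| = (A₀ - 4 / x' + 20 * lam * ψ + 2 / x) * |Y|` and
  `4 / x' ≥ 8 / x`, so this is `≤ (A₀ - 4 / x + 20 * lam * ψ) * |Y|`.
* `card_bound`: `A₀ = log D₁ + 6`. `Bd M R lam A₀ D` for all `D` by strong induction: for `D < D₁` directly:
  `|G| ≤ D ^ |Y|` (fix the points of `Y` one after the other), so `log |G| ≤ |Y| * log D ≤ |Y| * log D₁` and
  `4 / log D ≤ 4 / log 2 < 6` for `D ≥ 2`, the last summand is `≥ 0` (`D ≤ 1`: `G` is trivial, `log D = 0`). For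
  `D ≥ D₁ ≥ 16`: `Nat.sqrt D < D` and `step`. Then for a group `G` with `Bad G M R lam 1` apply it with
  `D = |Ω|`, `Y = univ`, `μ = 1`: `log |G| ≤ (A₀ + 20 * lam) * |Ω|`. `C = exp (A₀ + 20 * lam)`.
-/

set_option autoImplicit false

namespace Pool.Agent.Helper87.AS

open Finset

theorem zones {Ω : Type} [Fintype Ω] [DecidableEq Ω] {H : Subgroup (Equiv.Perm Ω)}
    {T K s : ℕ} (h : Tame H T K s) (hs : 2 ≤ s) {c : ℝ} (Y : Finset Ω)
    (hY : ∀ g ∈ H, ∀ x, x ∉ Y → g x = x)
    (hcl : ∀ x₀ : Ω, (4 * K * (s + 1) + 1) * T ≤ (orb H ∅ x₀).card → ∀ V : Finset Ω,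
      Real.log (Nat.card (fixSub H V)) ≤ c * (zone H T x₀).card +
        Real.log (Nat.card (fixSub H (V ∪ zone H T x₀)))) :
    ∃ V : Finset Ω, V ⊆ Y ∧
      Real.log (Nat.card H) ≤ c * V.card + Real.log (Nat.card (fixSub H V)) ∧
      ∀ x, x ∉ V → (orb H ∅ x).card < (4 * K * (s + 1) + 1) * T := by
  classical
  have hT2 : 2 ≤ T := h.two_le
  have hlarge : ∀ x : Ω, (4 * K * (s + 1) + 1) * T ≤ (orb H ∅ x).card → T ≤ (orb H ∅ x).card := by
    intro x hx
    exact (Nat.le_mul_of_pos_left T (Nat.succ_pos _)).trans hx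
  have hzY : ∀ x : Ω, zone H T x ⊆ Y := by
    intro x y hy
    by_contra hyY
    have h1 : T ≤ (orb H ∅ y).card := zone_large hy
    have h2 : (orb H ∅ y).card ≤ 1 := by
      apply card_le_one.2
      intro a ha b hb
      obtain ⟨g, hg, -, rfl⟩ := mem_orb.1 ha
      obtain ⟨g', hg', -, rfl⟩ := mem_orb.1 hb
      rw [hY g hg y hyY, hY g' hg' y hyY]
    omega
  let P : Finset Ω → Prop := fun V => V ⊆ Y ∧
    Real.log (Nat.card H) ≤ c * V.card + Real.log (Nat.card (fixSub H V)) ∧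
    ∃ S : Finset Ω, (∀ x ∈ S, (4 * K * (s + 1) + 1) * T ≤ (orb H ∅ x).card) ∧
      V = S.biUnion (zone H T)
  have hP0 : P ∅ := by
    refine ⟨empty_subset _, ?_, ∅, by simp, by simp⟩
    have h3 : Nat.card (fixSub H ∅) = Nat.card H := by
      refine Nat.card_congr (Equiv.subtypeEquivRight fun g => ?_)
      exact ⟨fun h => h.1, fun h => ⟨h, by simp⟩⟩
    rw [h3]
    simp
  obtain ⟨V, hV, hmax⟩ := exists_max_image (univ.filter P) card
    ⟨∅, mem_filter.2 ⟨mem_univ _, hP0⟩⟩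
  obtain ⟨hVY, hVlog, S, hS, hVS⟩ := (mem_filter.1 hV).2
  refine ⟨V, hVY, hVlog, ?_⟩
  intro x₀ hx₀V
  by_contra hcon
  have hx₀ : (4 * K * (s + 1) + 1) * T ≤ (orb H ∅ x₀).card := not_lt.1 hcon
  have hdisj : Disjoint V (zone H T x₀) := by
    rw [disjoint_left]
    intro y hyV hyz
    rw [hVS, mem_biUnion] at hyV
    obtain ⟨x, hxS, hyx⟩ := hyV
    apply hx₀V
    rw [hVS, mem_biUnion]
    exact ⟨x, hxS, h.zone_meet hs (hlarge x (hS x hxS)) (hlarge x₀ hx₀) hyx hyz⟩
  have hx₀z : x₀ ∈ zone H T x₀ := h.orb_subset_zone (hlarge x₀ hx₀) (orb_self H ∅ x₀)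
  have hcard : (V ∪ zone H T x₀).card = V.card + (zone H T x₀).card := card_union_of_disjoint hdisj
  have hP' : P (V ∪ zone H T x₀) := by
    refine ⟨union_subset hVY (hzY x₀), ?_, insert x₀ S, ?_, ?_⟩
    · have h4 := hcl x₀ hx₀ V
      rw [hcard, Nat.cast_add, mul_add]
      linarith
    · intro x hx
      rcases mem_insert.1 hx with rfl | hx
      · exact hx₀
      · exact hS x hx
    · rw [biUnion_insert, ← hVS, union_comm]
  have h5 := hmax _ (mem_filter.2 ⟨mem_univ _, hP'⟩)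
  have h6 : 0 < (zone H T x₀).card := card_pos.2 ⟨x₀, hx₀z⟩
  omega

theorem step (M R : ℕ) {lam : ℝ} (hlam : 0 < lam) :
    ∃ D₁ : ℕ, 16 ≤ D₁ ∧ ∀ (A₀ : ℝ) (D : ℕ), D₁ ≤ D → Bd M R lam A₀ (Nat.sqrt D) →
      Bd M R lam A₀ D := by
  obtain ⟨D₁, h16, hD₁⟩ := exists_tameD (6 * R + 6 * M + 20)
  refine ⟨D₁, h16, ?_⟩
  intro A₀ D hD IH Ω _ _ G Y μ hμ horb hfix hbad
  obtain ⟨W, T, K, s, hT, hs, hTD, hDT, hDT2, hW⟩ := hD₁ D hD Ω G Y horb hfix
  have hD16 : 16 ≤ D := h16.trans hD
  have hbadH : Bad (fixSub G W) M R lam μ := hbad.mono (fixSub_le G W)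
  have horbH : ∀ x, (orb (fixSub G W) ∅ x).card ≤ D := by
    intro x
    rw [orb_fixSub]
    exact (orb_card_mono (empty_subset _) x).trans (horb x)
  have hs2 : 2 ≤ s := by
    have h1 : 20 * 1 ≤ (6 * R + 6 * M + 20) * (K + 1) ^ 3 :=
      Nat.mul_le_mul (by omega) (Nat.one_le_pow _ _ (Nat.succ_pos _))
    omega
  obtain ⟨V, hVY, hVlog, hVorb⟩ := zones hT hs2 Y
    (fun g hg x hx => hfix g hg.1 x hx)
    (fun x₀ hx₀ V => class_bound hlam hD16 IH hT hs hTD hDT hDT2 horbH hμ hbadH hx₀ V)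
  have hsq : 4 ≤ Nat.sqrt D := by
    rw [Nat.le_sqrt]
    omega
  have hx' : 0 < Real.log (Nat.sqrt D) := by
    apply Real.log_pos
    have : (4 : ℝ) ≤ (Nat.sqrt D : ℝ) := by exact_mod_cast hsq
    linarith
  have hxx' : 2 * Real.log (Nat.sqrt D) ≤ Real.log D := by
    have h1 : ((Nat.sqrt D : ℕ) : ℝ) ^ 2 ≤ D := by
      have := Nat.sqrt_le' D
      exact_mod_cast this
    have h2 : (0 : ℝ) < ((Nat.sqrt D : ℕ) : ℝ) ^ 2 := by
      have : (4 : ℝ) ≤ (Nat.sqrt D : ℝ) := by exact_mod_cast hsq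
      positivity
    have h3 := Real.log_le_log h2 h1
    rw [Real.log_pow] at h3
    exact_mod_cast h3
  have hx : 0 < Real.log D := by linarith
  have hy : 0 ≤ Real.log μ := Real.log_nonneg hμ
  have hIH := IH Ω (fixSub (fixSub G W) V) (Y \ V) μ hμ (by
      intro x
      by_cases hxV : x ∈ V
      · rw [orb_fixSub, orb_card_of_mem (mem_union_left _ hxV)]
        omega
      · rw [orb_fixSub]
        exact ((orb_card_mono (empty_subset _) x).trans (hVorb x hxV).le).trans hTD) (by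
      intro g hg x hxYV
      by_cases hxV : x ∈ V
      · exact hg.2 x hxV
      · apply hfix g hg.1.1 x
        intro hxY
        exact hxYV (mem_sdiff.2 ⟨hxY, hxV⟩)) (hbadH.mono (fixSub_le _ _))
  generalize Real.log (Nat.sqrt D) = x' at *
  generalize Real.log D = x at *
  generalize Real.log μ = y at *
  have hψ : x' / (x' + y) ≤ x / (x + y) := by
    rw [div_le_div_iff₀ (by linarith) (by linarith)]
    nlinarith
  have hcardYV : ((Y \ V).card : ℝ) = Y.card - V.card := by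
    rw [card_sdiff_of_subset hVY, Nat.cast_sub (card_le_card hVY)]
  have hcY : (0 : ℝ) ≤ ((Y \ V).card : ℝ) := Nat.cast_nonneg _
  have h1x : 0 < 1 / x := by positivity
  have h4 : 8 / x ≤ 4 / x' := by
    rw [div_le_div_iff₀ hx hx']
    linarith
  have h7 : (A₀ - 4 / x' + 20 * lam * (x' / (x' + y))) * ((Y \ V).card : ℝ) ≤
      (A₀ - 4 / x' + 20 * lam * (x / (x + y)) + 1 / x) * ((Y \ V).card : ℝ) := by
    apply mul_le_mul_of_nonneg_right _ hcY
    have : 20 * lam * (x' / (x' + y)) ≤ 20 * lam * (x / (x + y)) :=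
      mul_le_mul_of_nonneg_left hψ (by positivity)
    linarith
  have hYn : (0 : ℝ) ≤ (Y.card : ℝ) := Nat.cast_nonneg _
  have h8 : Real.log (Nat.card G) ≤ Y.card / x +
      (A₀ - 4 / x' + 20 * lam * (x / (x + y)) + 1 / x) * Y.card := by
    rw [hcardYV] at h7 hIH
    linarith
  have h9 : (Y.card : ℝ) / x = (1 / x) * Y.card := by ring
  have h10 : (1 / x + (A₀ - 4 / x' + 20 * lam * (x / (x + y)) + 1 / x)) * (Y.card : ℝ) ≤
      (A₀ - 4 / x + 20 * lam * (x / (x + y))) * (Y.card : ℝ) := by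
    apply mul_le_mul_of_nonneg_right _ hYn
    have h11 : 8 / x = 8 * (1 / x) := by ring
    have h12 : 4 / x = 4 * (1 / x) := by ring
    linarith
  rw [h9] at h8
  linarith

private theorem card_le_set {Ω : Type} [Fintype Ω] [DecidableEq Ω] (G : Subgroup (Equiv.Perm Ω))
    (Y : Finset Ω) {D : ℕ} (horb : ∀ x, (orb G ∅ x).card ≤ D)
    (hfix : ∀ g ∈ G, ∀ x, x ∉ Y → g x = x) :
    Real.log (Nat.card G) ≤ Y.card * Real.log D := by
  have h1 := cost_set horb ∅ Y
  have h2 : Nat.card (fixSub G ∅) = Nat.card G := by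
    refine Nat.card_congr (Equiv.subtypeEquivRight fun g => ?_)
    exact ⟨fun h => h.1, fun h => ⟨h, by simp⟩⟩
  have h3 : Nat.card (fixSub G (∅ ∪ Y)) = 1 := by
    rw [empty_union, Nat.card_eq_one_iff_unique]
    refine ⟨⟨?_⟩, ⟨1⟩⟩
    rintro ⟨g, hg, hg'⟩ ⟨g', hg1, hg2⟩
    apply Subtype.ext
    apply Equiv.ext
    intro x
    show g x = g' x
    by_cases hx : x ∈ Y
    · rw [hg' x hx, hg2 x hx]
    · rw [hfix g hg x hx, hfix g' hg1 x hx]
  rw [h2, h3, mul_one] at h1
  have h4 : (0 : ℝ) < (Nat.card G : ℝ) := by exact_mod_cast Nat.card_pos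
  have h5 : (Nat.card G : ℝ) ≤ (D : ℝ) ^ Y.card := by exact_mod_cast h1
  have h6 := Real.log_le_log h4 h5
  rwa [Real.log_pow] at h6

theorem card_bound (M R : ℕ) (lam : ℝ) (hlam : 0 < lam) :
    ∃ C : ℝ, 1 ≤ C ∧ ∀ (Ω : Type) [Fintype Ω] [DecidableEq Ω] (G : Subgroup (Equiv.Perm Ω))
      (Y : Finset Ω), (∀ g ∈ G, ∀ x, x ∉ Y → g x = x) → Bad G M R lam 1 →
      (Nat.card G : ℝ) ≤ C ^ Y.card := by
  obtain ⟨D₁, h16, hstep⟩ := step M R hlam
  have hD₁ : 0 ≤ Real.log D₁ := Real.log_natCast_nonneg _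
  have hBd : ∀ D : ℕ, Bd M R lam (Real.log D₁ + 6) D := by
    intro D
    induction D using Nat.strong_induction_on with
    | _ D ih =>
      by_cases hD : D₁ ≤ D
      · apply hstep _ D hD
        apply ih
        apply Nat.sqrt_lt_self
        omega
      · intro Ω _ _ G Y μ hμ horb hfix hbad
        refine (card_le_set G Y horb hfix).trans ?_
        rw [mul_comm]
        apply mul_le_mul_of_nonneg_right _ (Nat.cast_nonneg _)
        have hy : 0 ≤ Real.log μ := Real.log_nonneg hμ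
        have hx : 0 ≤ Real.log D := Real.log_natCast_nonneg _
        have h1 : 0 ≤ 20 * lam * (Real.log D / (Real.log D + Real.log μ)) := by positivity
        rcases Nat.lt_or_ge D 2 with h2 | h2
        · have h3 : Real.log D = 0 := by
            interval_cases D <;> simp
          rw [h3] at h1 ⊢
          simp only [div_zero]
          linarith
        · have h3 : Real.log 2 ≤ Real.log D :=
            Real.log_le_log (by norm_num) (by exact_mod_cast h2)
          have h4 := Real.log_two_gt_d9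
          have h5 : 4 / Real.log D ≤ 6 := by
            rw [div_le_iff₀ (by linarith)]
            linarith
          have h6 : Real.log D ≤ Real.log D₁ :=
            Real.log_le_log (by have : (0 : ℝ) < (D : ℝ) := by exact_mod_cast (by omega : 0 < D)
                                exact this) (by exact_mod_cast (by omega : D ≤ D₁))
          linarith
  refine ⟨Real.exp (Real.log D₁ + 6 + 20 * lam), Real.one_le_exp (by positivity), ?_⟩
  intro Ω _ _ G Y hY hbad
  have h1 := hBd (Fintype.card Ω) Ω G Y 1 le_rfl (fun x => card_le_univ _) hY hbad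
  have h2 : (0 : ℝ) < (Nat.card G : ℝ) := by exact_mod_cast Nat.card_pos
  rw [← Real.exp_log h2, ← Real.exp_nat_mul]
  apply Real.exp_le_exp.2
  refine h1.trans ?_
  rw [mul_comm]
  apply mul_le_mul_of_nonneg_left _ (Nat.cast_nonneg _)
  have hx : 0 ≤ Real.log (Fintype.card Ω) := Real.log_natCast_nonneg _
  have h3 : 0 ≤ 4 / Real.log (Fintype.card Ω) := by positivity
  have h4 : Real.log (Fintype.card Ω) / (Real.log (Fintype.card Ω) + Real.log 1) ≤ 1 := by
    rw [Real.log_one, add_zero]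
    exact div_self_le_one _
  have h5 : 20 * lam * (Real.log (Fintype.card Ω) / (Real.log (Fintype.card Ω) + Real.log 1)) ≤
      20 * lam * 1 := mul_le_mul_of_nonneg_left h4 (by positivity)
  linarith

end Pool.Agent.Helper87.AS
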