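import Pool.Agent.Helper87.AS.Pump
import Pool.Agent.Helper87.AS.Count
import Pool.Agent.Helper87.AT.StepD
import Pool.Agent.Helper87.AT.Down
import Pool.Agent.Helper87.AT.Steps

/-!
# Project AT: the main theorems
-/

set_option autoImplicit false

namespace Pool.Agent.Helper87.AS

open FirstOrder FirstOrder.Language Pool.Agent.Helper31.Spectra

theorem Rem.anti {Ω : Type} {G : Subgroup (Equiv.Perm Ω)} [Fintype Ω] [DecidableEq Ω]
    {R R' : ℕ} {X : Finset Ω} (h : Rem G R X) (hR : R' ≤ R) : Rem G R' X :=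
  fun Z hZ => h Z (hZ.trans hR)

/-- Models with many automorphisms can be pumped up and down. -/
theorem aut_pump {L : FirstOrder.Language.{0, 0}} (hL : FinVoc L) (φ : L.Sentence) :
    ∃ C : ℕ, ∀ (A : Type) [L.Structure A] [Finite A] (Y : Set A), φ.Realize A →
      C ^ Y.ncard < Nat.card {f : A ≃[L] A // ∀ x, x ∉ Y → f x = x} →
      ∃ k, 1 ≤ k ∧
        (∀ j : ℕ, ∃ (B : Type) (_ : L.Structure B),
          Nat.card B = Nat.card A + k * j ∧ φ.Realize B) ∧
        ∀ j ≤ Nat.lcmUpto k, k * j + k ≤ Nat.card A ∧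
          ∃ (B : Type) (_ : L.Structure B), Nat.card B = Nat.card A - k * j ∧ φ.Realize B := by
  classical
  obtain ⟨M, R₁, hpump⟩ := pump hL φ
  obtain ⟨a, ha⟩ : ∃ a : ℕ, ∀ n, a < n → IsEmpty (L.Functions n) := by
    have hfin : Finite (Σ n, L.Functions n) := hL.1
    have hfin2 : (Set.range (fun x : Σ n, L.Functions n => x.1)).Finite := Set.finite_range _
    obtain ⟨a, ha⟩ := hfin2.bddAbove
    refine ⟨a, fun n hn => ⟨fun f => ?_⟩⟩
    have := ha (Set.mem_range.2 ⟨⟨n, f⟩, rfl⟩)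
    exact absurd hn (not_lt.2 this)
  obtain ⟨lam, hlam, hlcm⟩ := lcmUpto_le
  obtain ⟨C, hC1, hC⟩ := card_bound M (max R₁ (max a (mx φ))) lam hlam
  refine ⟨⌈C⌉₊, fun A _ _ Y hA hcard => ?_⟩
  have : Fintype A := Fintype.ofFinite A
  obtain ⟨Y', hY'⟩ : ∃ Y' : Finset A, (Y' : Set A) = Y := ⟨Y.toFinset, by simp⟩
  subst hY'
  rw [Set.ncard_coe_finset] at hcard
  obtain ⟨G, hGA, hGY, hGc⟩ : ∃ G : Subgroup (Equiv.Perm A), G ≤ autSub L A ∧
      (∀ g ∈ G, ∀ x, x ∉ Y' → g x = x) ∧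
      Nat.card {f : A ≃[L] A // ∀ x, x ∉ (Y' : Set A) → f x = x} ≤ Nat.card G := by
    refine ⟨fixSub (autSub L A) (Finset.univ.filter fun x => x ∉ Y'), fixSub_le _ _, ?_, ?_⟩
    · intro g hg x hx
      exact hg.2 x (by simpa using hx)
    · have hmem : ∀ f : {f : A ≃[L] A // ∀ x, x ∉ (Y' : Set A) → f x = x},
          f.1.toEquiv ∈ fixSub (autSub L A) (Finset.univ.filter fun x => x ∉ Y') := by
        intro f
        refine ⟨⟨fun _ φ x => f.1.map_fun φ x, fun _ r x => f.1.map_rel r x⟩, fun z hz => ?_⟩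
        exact f.2 z (by simpa using hz)
      refine Nat.card_le_card_of_injective
        (fun f => (⟨f.1.toEquiv, hmem f⟩ :
          fixSub (autSub L A) (Finset.univ.filter fun x => x ∉ Y'))) ?_
      intro f f' h
      apply Subtype.ext
      ext x
      have h1 := congrArg Subtype.val h
      exact congrArg (fun g : Equiv.Perm A => g x) h1
  have hbad : ¬ Bad G M (max R₁ (max a (mx φ))) lam 1 := by
    intro hb
    have h1 := hC A G Y' hGY hb
    have h2 : (C : ℝ) ^ Y'.card ≤ ((⌈C⌉₊ : ℕ) : ℝ) ^ Y'.card :=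
      pow_le_pow_left₀ (by linarith) (Nat.le_ceil C) _
    have h3 : ((Nat.card G : ℕ) : ℝ) ≤ ((⌈C⌉₊ ^ Y'.card : ℕ) : ℝ) := by
      push_cast
      exact h1.trans h2
    exact absurd (hGc.trans (Nat.cast_le.1 h3)) (not_le.2 hcard)
  unfold Bad at hbad
  push Not at hbad
  obtain ⟨k, J, hJ, hP', hexp⟩ := hbad
  have hP := hP'.mono hGA
  rw [one_mul] at hexp
  have hkJ : Nat.lcmUpto k ≤ J := by
    have := (hlcm k).trans hexp
    exact_mod_cast this
  refine ⟨k, hP.pos, fun j => ?_, fun j hj => ?_⟩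
  · obtain ⟨p, hp, hsym⟩ := hP.sys
    have hH : Homog L A p R₁ := by
      refine ⟨hp, fun τ Z hZ hpZ => ?_⟩
      obtain ⟨g, hg, h1, h2⟩ := hsym τ Z (hZ.trans (le_max_left _ _)) hpZ
      obtain ⟨f, hf⟩ := exists_equiv hg
      exact ⟨f, fun z hz => by rw [hf, h1 z hz], fun i c => by rw [hf, h2]⟩
    obtain ⟨B, sB, hB, hφB⟩ := hpump A k p hH hA j
    exact ⟨B, sB, by rw [hB, mul_comm], hφB⟩
  · obtain ⟨h1, X, hX, hR⟩ := hP.rem j (hj.trans hkJ)
    rw [← Nat.card_eq_fintype_card] at h1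
    refine ⟨h1, ?_⟩
    obtain ⟨B, sB, hB, hφB⟩ := down (q := max a (mx φ))
      (fun n hn => ha n (lt_of_le_of_lt (le_max_left _ _) hn))
      (hR.anti (le_max_right _ _)) φ (le_max_right _ _) hA
    refine ⟨B, sB, ?_, hφB⟩
    rw [hX] at hB
    omega

/-- **Asser's problem for sentences whose large models have many automorphisms.** -/
theorem aut_steps {L : FirstOrder.Language.{0, 0}} (hL : FinVoc L) (φ : L.Sentence) :
    ∃ C : ℕ, ∀ B : ℕ, (∀ n ∈ Spec L φ, B ≤ n → ∃ (A : Type) (_ : L.Structure A) (Y : Set A),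
        Nat.card A = n ∧ φ.Realize A ∧
        C ^ Y.ncard < Nat.card {f : A ≃[L] A // ∀ x, x ∉ Y → f x = x}) →
      ∃ D, 0 < D ∧ ∀ n ∈ Spec L φ, B ≤ n → n + D ∈ Spec L φ := by
  obtain ⟨C, hC⟩ := aut_pump hL φ
  refine ⟨C, fun B hB => steps (Spec L φ) B ?_⟩
  intro n hn hBn
  obtain ⟨A, sA, Y, hcard, hφ, haut⟩ := hB n hn hBn
  have hn0 : 0 < n := hn.1
  have hfin : Finite A := Nat.finite_of_card_ne_zero (by omega)
  subst hcard
  obtain ⟨k, hk, hup, hdown⟩ := hC A Y hφ haut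
  refine ⟨k, hk, fun j => ⟨by omega, hup j⟩, fun j hj => ?_⟩
  obtain ⟨h1, h2⟩ := hdown j hj
  exact ⟨h1, by omega, h2⟩

theorem card_fix_univ (L : FirstOrder.Language.{0, 0}) (A : Type) [L.Structure A] :
    Nat.card {f : A ≃[L] A // ∀ x, x ∉ (Set.univ : Set A) → f x = x} =
      Nat.card (A ≃[L] A) :=
  Nat.card_congr (Equiv.subtypeUnivEquiv fun _ x hx => absurd (Set.mem_univ x) hx)

/-- Few labelled models mean many automorphisms. -/
theorem aut_of_few {L : FirstOrder.Language.{0, 0}} (hL : FinVoc L) (φ : L.Sentence) {n C : ℕ}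
    (hn : n ∈ Spec L φ)
    (h : Nat.card {S : L.Structure (Fin n) // @Sentence.Realize L (Fin n) S φ} * (C + 1) ^ n ≤
      n.factorial) :
    ∃ (A : Type) (_ : L.Structure A), Nat.card A = n ∧ φ.Realize A ∧
      C ^ n < Nat.card (A ≃[L] A) := by
  obtain ⟨hn0, A, sA, hcard, hφ⟩ := hn
  have hfin : Finite A := Nat.finite_of_card_ne_zero (by omega)
  have e : A ≃ Fin n := (Finite.equivFin A).trans (finCongr hcard)
  let S : L.Structure (Fin n) := e.inducedStructure
  have hS : @Sentence.Realize L (Fin n) S φ := by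
    exact (StrongHomClass.realize_sentence (e.inducedStructureEquiv : A ≃[L] Fin n) φ).1 hφ
  refine ⟨Fin n, S, by simp, hS, ?_⟩
  have h1 := factorial_le hL φ n S hS
  rw [card_autSub] at h1
  by_contra hcon
  push Not at hcon
  have hpos : 0 < Nat.card {S' : L.Structure (Fin n) // @Sentence.Realize L (Fin n) S' φ} := by
    have hf := finite_str hL (Fin n)
    have : Nonempty {S' : L.Structure (Fin n) // @Sentence.Realize L (Fin n) S' φ} := ⟨⟨S, hS⟩⟩
    exact Nat.card_pos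
  have h2 : n.factorial ≤
      Nat.card {S' : L.Structure (Fin n) // @Sentence.Realize L (Fin n) S' φ} * C ^ n :=
    h1.trans (Nat.mul_le_mul_left _ hcon)
  have h3 : C ^ n < (C + 1) ^ n := Nat.pow_lt_pow_left (Nat.lt_succ_self C) (by omega)
  have h4 := Nat.mul_lt_mul_of_pos_left h3 hpos
  omega

end Pool.Agent.Helper87.AS
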