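import Pool.Agent.Helper87.AT.PDefs
import Pool.Agent.Helper87.AS.Min

/-!
# AT-6: minimising the sum of the logarithms of the orbit sizes, version with a bound for the orbits

Same proof as `exists_W` in `AS/Min.lean`: minimise `f W = ∑ x, log |orb G W x| + c * |W|`. Points outside `Y`
are fixed, so their orbits have one point, the others at most `D`: `f ∅ ≤ |Y| * log D`, so
`c * |W| ≤ |Y| * log D`. For every `Z`: `f W ≤ f (W ∪ Z)` gives the second statement (`orb_fixSub`). Third
statement: `|G| ≤ D ^ |W| * |fixSub G W|` (fix the points of `W` one after the other, `card_fixSub`,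
`orb_card_mono`, as in `card_le_fixSub`), take logarithms.
-/

set_option autoImplicit false

namespace Pool.Agent.Helper87.AS

open Finset

theorem exists_WD {Ω : Type} [Fintype Ω] [DecidableEq Ω] (G : Subgroup (Equiv.Perm Ω))
    (Y : Finset Ω) {D : ℕ} (hD : 2 ≤ D) (hG : ∀ x, (orb G ∅ x).card ≤ D)
    (hY : ∀ g ∈ G, ∀ x, x ∉ Y → g x = x) {c : ℝ} (hc : 0 < c) :
    ∃ W : Finset Ω, c * W.card ≤ Y.card * Real.log D ∧
      (∀ Z : Finset Ω,
        ∑ x : Ω, (Real.log (orb (fixSub G W) ∅ x).card - Real.log (orb (fixSub G W) Z x).card)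
          ≤ c * Z.card) ∧
      Real.log (Nat.card G) ≤ W.card * Real.log D + Real.log (Nat.card (fixSub G W)) := by
  classical
  obtain ⟨W, -, hW⟩ := Finset.exists_min_image (univ : Finset (Finset Ω))
    (fun W => ∑ x : Ω, Real.log ((orb G W x).card : ℝ) + c * (W.card : ℝ)) ⟨∅, mem_univ _⟩
  refine ⟨W, ?_, fun Z => ?_, ?_⟩
  · have h1 := hW ∅ (mem_univ _)
    have h2 : 0 ≤ ∑ x : Ω, Real.log ((orb G W x).card : ℝ) := by
      refine Finset.sum_nonneg fun x _ => Real.log_natCast_nonneg _
    have h3 : ∑ x : Ω, Real.log ((orb G ∅ x).card : ℝ) ≤ (Y.card : ℝ) * Real.log D := by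
      have h4 : ∑ x ∈ Y, Real.log ((orb G ∅ x).card : ℝ) = ∑ x : Ω, Real.log ((orb G ∅ x).card : ℝ) := by
        apply Finset.sum_subset (subset_univ _)
        intro x _ hx
        have h5 : orb G ∅ x = {x} := by
          ext y
          rw [mem_orb, mem_singleton]
          constructor
          · rintro ⟨g, hg, -, rfl⟩
            exact hY g hg x hx
          · rintro rfl
            exact ⟨1, G.one_mem, fun _ _ => rfl, rfl⟩
        rw [h5, card_singleton, Nat.cast_one, Real.log_one]
      rw [← h4]
      have h5 : ∀ x ∈ Y, Real.log ((orb G ∅ x).card : ℝ) ≤ Real.log (D : ℝ) := by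
        intro x _
        apply Real.log_le_log
        · exact_mod_cast orb_pos G ∅ x
        · exact_mod_cast hG x
      have h6 := Finset.sum_le_card_nsmul _ _ _ h5
      rwa [nsmul_eq_mul] at h6
    rw [card_empty, Nat.cast_zero, mul_zero, add_zero] at h1
    linarith
  · have h1 := hW (W ∪ Z) (mem_univ _)
    have h2 : ((W ∪ Z).card : ℝ) ≤ (W.card : ℝ) + (Z.card : ℝ) := by
      exact_mod_cast card_union_le W Z
    simp only [orb_fixSub, union_empty]
    rw [Finset.sum_sub_distrib]
    have h3 : c * ((W ∪ Z).card : ℝ) ≤ c * ((W.card : ℝ) + (Z.card : ℝ)) :=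
      mul_le_mul_of_nonneg_left h2 hc.le
    linarith
  · have key : ∀ Z : Finset Ω, Nat.card (fixSub G ∅) ≤ D ^ Z.card * Nat.card (fixSub G Z) := by
      intro Z
      induction Z using Finset.induction_on with
      | empty => simp
      | insert u Z hu ih =>
        rw [card_insert_of_notMem hu, pow_succ]
        have h1 : (orb G Z u).card ≤ D := (orb_card_mono (empty_subset Z) u).trans (hG u)
        calc Nat.card (fixSub G ∅) ≤ D ^ Z.card * Nat.card (fixSub G Z) := ih
          _ = D ^ Z.card * ((orb G Z u).card * Nat.card (fixSub G (insert u Z))) := by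
              rw [card_fixSub G Z u]
          _ ≤ D ^ Z.card * (D * Nat.card (fixSub G (insert u Z))) :=
              Nat.mul_le_mul_left _ (Nat.mul_le_mul_right _ h1)
          _ = D ^ Z.card * D * Nat.card (fixSub G (insert u Z)) := by ring
    have h3 : Nat.card (fixSub G ∅) = Nat.card G := by
      refine Nat.card_congr (Equiv.subtypeEquivRight fun g => ?_)
      exact ⟨fun h => h.1, fun h => ⟨h, by simp⟩⟩
    have h4 := key W
    rw [h3] at h4
    have h5 : (0 : ℝ) < Nat.card G := by exact_mod_cast Nat.card_pos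
    have h6 : (0 : ℝ) < Nat.card (fixSub G W) := by exact_mod_cast card_fixSub_pos G W
    have h7 : (0 : ℝ) < D := by exact_mod_cast (by omega : 0 < D)
    have h8 : (Nat.card G : ℝ) ≤ (D : ℝ) ^ W.card * Nat.card (fixSub G W) := by exact_mod_cast h4
    have h9 := Real.log_le_log h5 h8
    rwa [Real.log_mul (pow_pos h7 _).ne' h6.ne', Real.log_pow] at h9

end Pool.Agent.Helper87.AS
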