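import Pool.Agent.Helper87.AT.PDefs

/-!
# AT-2: the zone of a large orbit

`pcs H T x₀` is the set of the pieces `pc H T x`, `x ∈ orb H ∅ x₀`, and `zone H T x₀` their union. All from
`Piece.lean`: `pc_image` (`g` maps the piece of `x` onto the piece of `g x`), `pc_eq` (pieces of points of a
piece are equal to it, so different pieces are disjoint), `self_mem_pc`, `large_of_mem_pc`.
* `card_zone`: disjoint union of sets with `|pc H T x₀|` elements.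
* `card_inter`: `P = pc H T x`, `P' = pc H T x'`, `x' = g x` with `g ∈ H`; `g` maps `P ∩ orb H ∅ y` onto
  `P' ∩ orb H ∅ y` (an orbit is mapped to itself).
-/

set_option autoImplicit false

namespace Pool.Agent.Helper87.AS

open Finset

variable {Ω : Type} [Fintype Ω] [DecidableEq Ω] {H : Subgroup (Equiv.Perm Ω)} {T K s : ℕ}
  {x₀ y : Ω}

theorem mem_zone : y ∈ zone H T x₀ ↔ ∃ x ∈ orb H ∅ x₀, y ∈ pc H T x := by
  unfold zone
  rw [mem_biUnion]

theorem mem_pcs {P : Finset Ω} : P ∈ pcs H T x₀ ↔ ∃ x ∈ orb H ∅ x₀, pc H T x = P := by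
  unfold pcs
  rw [mem_image]

private theorem large_of_orb {x : Ω} (hx₀ : T ≤ (orb H ∅ x₀).card) (hx : x ∈ orb H ∅ x₀) :
    T ≤ (orb H ∅ x).card := by
  rw [orb_eq hx]
  exact hx₀

theorem Tame.orb_subset_zone (h : Tame H T K s) (hx₀ : T ≤ (orb H ∅ x₀).card) :
    orb H ∅ x₀ ⊆ zone H T x₀ := by
  intro x hx
  exact mem_zone.2 ⟨x, hx, h.self_mem_pc (large_of_orb hx₀ hx)⟩

theorem card_of_mem_pcs {P : Finset Ω} (hP : P ∈ pcs H T x₀) : P.card = (pc H T x₀).card := by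
  obtain ⟨x, hx, rfl⟩ := mem_pcs.1 hP
  obtain ⟨g, hg, _, rfl⟩ := mem_orb.1 hx
  rw [pc_image hg, card_image_of_injective _ g.injective]

theorem Tame.pcs_disj (h : Tame H T K s) (hs : 2 ≤ s) (hx₀ : T ≤ (orb H ∅ x₀).card)
    {P P' : Finset Ω} (hP : P ∈ pcs H T x₀) (hP' : P' ∈ pcs H T x₀) (hne : P ≠ P') :
    Disjoint P P' := by
  obtain ⟨x, hx, rfl⟩ := mem_pcs.1 hP
  obtain ⟨x', hx', rfl⟩ := mem_pcs.1 hP'
  rw [disjoint_left]
  intro w hw hw'
  apply hne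
  rw [← h.pc_eq hs (large_of_orb hx₀ hx) hw, ← h.pc_eq hs (large_of_orb hx₀ hx') hw']

theorem biUnion_pcs : (pcs H T x₀).biUnion id = zone H T x₀ := by
  ext w
  rw [mem_biUnion, mem_zone]
  constructor
  · rintro ⟨P, hP, hw⟩
    obtain ⟨x, hx, rfl⟩ := mem_pcs.1 hP
    exact ⟨x, hx, hw⟩
  · rintro ⟨x, hx, hw⟩
    exact ⟨pc H T x, mem_pcs.2 ⟨x, hx, rfl⟩, hw⟩

theorem Tame.card_zone (h : Tame H T K s) (hs : 2 ≤ s) (hx₀ : T ≤ (orb H ∅ x₀).card) :
    (zone H T x₀).card = (pcs H T x₀).card * (pc H T x₀).card := by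
  have h1 : ((pcs H T x₀).biUnion id).card = ∑ P ∈ pcs H T x₀, (id P : Finset Ω).card :=
    card_biUnion (fun P hP P' hP' hne => h.pcs_disj hs hx₀ hP hP' hne)
  rw [← biUnion_pcs, h1,
    sum_congr rfl (fun P hP => (card_of_mem_pcs hP : (id P : Finset Ω).card = _)), sum_const,
    smul_eq_mul]

theorem zone_inv {g : Equiv.Perm Ω} (hg : g ∈ H) (hy : y ∈ zone H T x₀) :
    g y ∈ zone H T x₀ := by
  obtain ⟨x, hx, hxy⟩ := mem_zone.1 hy
  refine mem_zone.2 ⟨g x, orb_trans hx (mem_orb.2 ⟨g, hg, by simp, rfl⟩), ?_⟩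
  rw [pc_image hg]
  exact mem_image_of_mem g hxy

theorem zone_large (hy : y ∈ zone H T x₀) : T ≤ (orb H ∅ y).card := by
  obtain ⟨x, _, hxy⟩ := mem_zone.1 hy
  exact large_of_mem_pc hxy

theorem Tame.zone_pc (h : Tame H T K s) (hs : 2 ≤ s) (hx₀ : T ≤ (orb H ∅ x₀).card)
    (hy : y ∈ zone H T x₀) : pc H T y ⊆ zone H T x₀ := by
  obtain ⟨x, hx, hxy⟩ := mem_zone.1 hy
  rw [h.pc_eq hs (large_of_orb hx₀ hx) hxy]
  intro w hw
  exact mem_zone.2 ⟨x, hx, hw⟩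

/-- If the zone of `x₀` contains a point of the zone of `x₁` then it contains the orbit of `x₁`. -/
theorem Tame.zone_meet (h : Tame H T K s) (hs : 2 ≤ s) {x₁ : Ω}
    (hx₀ : T ≤ (orb H ∅ x₀).card) (hx₁ : T ≤ (orb H ∅ x₁).card) (hy : y ∈ zone H T x₀)
    (hy' : y ∈ zone H T x₁) : x₁ ∈ zone H T x₀ := by
  obtain ⟨x', hx', hxy'⟩ := mem_zone.1 hy'
  have h1 : x' ∈ zone H T x₀ := by
    apply h.zone_pc hs hx₀ hy
    rw [h.pc_eq hs (large_of_orb hx₁ hx') hxy']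
    exact h.self_mem_pc (large_of_orb hx₁ hx')
  obtain ⟨g, hg, _, rfl⟩ := mem_orb.1 (orb_symm hx')
  exact zone_inv hg h1

theorem card_inter {P P' : Finset Ω} (hP : P ∈ pcs H T x₀) (hP' : P' ∈ pcs H T x₀) (y : Ω) :
    (P ∩ orb H ∅ y).card = (P' ∩ orb H ∅ y).card := by
  obtain ⟨x, hx, rfl⟩ := mem_pcs.1 hP
  obtain ⟨x', hx', rfl⟩ := mem_pcs.1 hP'
  obtain ⟨g, hg, _, rfl⟩ := mem_orb.1 (orb_trans (orb_symm hx) hx')
  have h1 : (orb H ∅ y).image g = orb H ∅ y := by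
    have h2 := orb_image hg ∅ y
    rw [image_empty] at h2
    rw [← h2]
    exact orb_eq (mem_orb.2 ⟨g, hg, by simp, rfl⟩)
  have h3 : pc H T (g x) ∩ orb H ∅ y = (pc H T x ∩ orb H ∅ y).image g := by
    rw [pc_image hg, image_inter _ _ g.injective, h1]
  rw [h3, card_image_of_injective _ g.injective]

end Pool.Agent.Helper87.AS
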